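import Pool.Agent.Lib.MP_19b52f_al.EA2.Star

/-! Cocycles from labels, reflection models, and the basic cocycle of a vertex. -/

namespace Pool.Agent.Lib.MP_19b52f_al.EA2

open Pool.Agent.Lib.MP_19b52f_al.EA

variable {S : Type} {M : CoxeterMatrix S} {Φ : Type} [Group Φ] {θ : Artin M →* Φ}

lemma W_c {R : Type} [Group R] (x y : Wm Φ R) (n : ℕ) (φ : Φ) :
    (W x y n).c φ = pp (fun j : ℕ => (lt x y (j + 1)).c (φ * (W x y j).a)) n := by
  induction n with
  | zero => simp [pp]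
  | succ n ih => rw [Nat.cast_succ, W_succ, Wm.mul_c, ih, pp]

lemma W_rel {r r' : S} (h : r ≠ r') (h0 : M r r' ≠ 0) :
    W (ag M r) (ag M r') (M r r') = W (ag M r') (ag M r) (M r r') := by
  simpa only [omega_eq_W] using ag_rel M h h0

lemma exists_lab {R : Type} [Group R] (l : Φ → S → R)
    (h : ∀ φ r r', r ≠ r' → M r r' ≠ 0 →
      pp (fun j : ℕ => l (φ * θ (W (ag M r) (ag M r') j)) (lt r r' (j + 1))) (M r r') =
      pp (fun j : ℕ => l (φ * θ (W (ag M r') (ag M r) j)) (lt r' r (j + 1))) (M r r')) :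
    ∃ c : Φ → Artin M → R, (∀ φ g g', c φ (g * g') = c φ g * c (φ * θ g) g') ∧
      ∀ φ s, c φ (ag M s) = l φ s := by
  let f : S → Wm Φ R := fun s => ⟨fun φ => l φ s, θ (ag M s)⟩
  have h1 : ∀ r r' j, (W (f r) (f r') j).a = θ (W (ag M r) (ag M r') j) := fun r r' j =>
    (map_W _ _ _ Wm.aHom).trans (map_W _ _ _ θ).symm
  let Ψ : Artin M →* Wm Φ R := artinLift M f (fun r r' hr h0 => by
    rw [omega_eq_W, omega_eq_W]
    ext φ
    · simpa only [W_c, h1, ← map_lt _ _ _ f] using h φ r r' hr h0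
    · rw [h1, h1, W_rel hr h0])
  have h2 : ∀ g, (Ψ g).a = θ g := fun g =>
    DFunLike.congr_fun (artin_ext (f := Wm.aHom.comp Ψ) (g := θ) fun s => by
      simp [Ψ, f, Wm.aHom]) g
  exact ⟨fun φ g => (Ψ g).c φ, fun φ g g' => by simp only [map_mul, Wm.mul_c, h2], fun φ s => by
    simp [Ψ, f]⟩

lemma base_of (D : Coc θ) {J : Set S}
    (h1 : ∀ g ∈ pa M J, ∀ y ∈ pa M (cent M J), ∀ t ∈ cent M J, D.c (θ g * θ y) (ag M t) = 1)
    (h2 : ∀ U, ∀ g ∈ pa M J, ∀ g' ∈ pa M (cent M J), D.V U (θ (g * g')) ⊆ D.V U (θ g))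
    (h3 : ∀ T U g, g ∈ pa M J → ¬ J ⊆ T → ¬ J ⊆ U → Mem2 (D.P T 1) (D.P U (θ g)) (D.c 1 g) →
      (∃ a ∈ pa M (T ∩ J), ∃ b ∈ pa M (U ∩ J), θ g = θ (a * b)) ∧
        (θ g = 1 → Mem2 (pa M (T ∩ J)) (pa M (U ∩ J)) g)) : D.Base J := by
  intro T U g g' hg hg' hm
  by_cases hT : J ⊆ T
  · have h4 : g ∈ pa M (T ∩ J) := pa_mono (Set.subset_inter hT subset_rfl) hg
    exact ⟨⟨g, h4, 1, one_mem _, by simp⟩, fun _ => ⟨g, h4, 1, one_mem _, by simp⟩⟩
  by_cases hU : J ⊆ U
  · have h4 : g ∈ pa M (U ∩ J) := pa_mono (Set.subset_inter hU subset_rfl) hg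
    exact ⟨⟨1, one_mem _, g, h4, by simp⟩, fun _ => ⟨1, one_mem _, g, h4, by simp⟩⟩
  have key : ∀ y ∈ pa M (cent M J), D.c (θ g * θ y) g' = 1 := by
    clear hm
    induction hg' using Subgroup.closure_induction with
    | mem x hx =>
      obtain ⟨t, ht, rfl⟩ := hx
      exact fun y hy => h1 g hg y hy t ht
    | one => simp
    | mul x x' hx _ ihx ihx' =>
      intro y hy
      rw [D.c_mul, ihx y hy, mul_assoc, ← map_mul, ihx' _ (mul_mem hy hx), mul_one]
    | inv x hx ih =>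
      intro y hy
      rw [D.c_inv, mul_assoc, ← map_mul, ih _ (mul_mem hy (inv_mem hx)), inv_one]
  refine h3 T U g hg hT hU ?_
  have h4 := key 1 (one_mem _)
  rw [map_one, mul_one] at h4
  rw [Coc.Hyp, D.c_mul, one_mul, one_mul, h4, mul_one] at hm
  exact hm.map (MonoidHom.id _) (fun _ h => h) (PX_mono (h2 U g hg g' hg'))

/-- A reflection model of the quotient. -/
structure Geo (θ : Artin M →* Φ) (F : Type) [Field F] where
  B : (S → F) →ₗ[F] (S → F) →ₗ[F] F
  α : S → S → F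
  act : Φ →* ((S → F) ≃ₗ[F] (S → F))
  iso : ∀ φ v w, B (act φ v) (act φ w) = B v w
  refl : ∀ r, IsRefl B (α r) (act (θ (ag M r)))
  diag : ∀ r, B (α r) (α r) = 2

variable {F : Type} [Field F]

namespace Geo
variable (G : Geo θ F)

lemma root {z : F} {m : ℤ} {r r' : S} (P : Pair G.B z m (G.α r) (G.α r')) (j : ℤ) :
    G.act (θ (W (ag M r) (ag M r') j)) (G.α (lt r r' (j + 1))) = bb z (G.α r) (G.α r') (j + 1) ∧
    G.act (θ (W (ag M r) (ag M r') j)) (G.α (lt r r' j)) = -bb z (G.α r) (G.α r') j := by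
  rw [map_W, map_W, map_lt _ _ _ G.α, map_lt _ _ _ G.α]
  exact P.W_root (G.refl r) (G.refl r') j

lemma act_mul (φ ψ : Φ) (v : S → F) : G.act (φ * ψ) v = G.act φ (G.act ψ v) := by
  rw [map_mul, LinearEquiv.mul_apply]

/-- The vector lies in the translate of a coordinate subspace. -/
def In (T : Set S) (φ : Φ) (y : S → F) : Prop := ∃ v, (∀ x, x ∉ T → v x = 0) ∧ G.act φ v = y

/-- The vector or its negative is fixed. -/
def pm (y : S → F) : Subgroup (Artin M) where
  carrier := {g | G.act (θ g) y = y ∨ G.act (θ g) y = -y}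
  one_mem' := Or.inl (by simp)
  mul_mem' := by
    rintro a b (ha | ha) (hb | hb) <;> simp [ha, hb]
  inv_mem' := by
    rintro a (ha | ha)
    · left
      nth_rewrite 1 [← ha]
      rw [← G.act_mul, ← map_mul]; simp
    · right
      rw [← neg_eq_iff_eq_neg, ← map_neg, ← ha, ← G.act_mul, ← map_mul]; simp

/-- The roots are the standard basis and have the angles of the Coxeter matrix. -/
structure Std (z : ℕ → F) : Prop where
  one : ∀ r, G.α r r = 1
  zero : ∀ r x, x ≠ r → G.α r x = 0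
  pair : ∀ r r', r ≠ r' → M r r' ≠ 0 → Pair G.B (z (M r r')) (M r r') (G.α r) (G.α r')

variable {G} {z : ℕ → F} (hG : G.Std z)
include hG

lemma Std.in_gen {T : Set S} {r : S} (hr : r ∈ T) (φ : Φ) (y : S → F) :
    G.In T (φ * θ (ag M r)) y ↔ G.In T φ y := by
  have h : ∀ v : S → F, (∀ x, x ∉ T → v x = 0) → ∀ x, x ∉ T → G.act (θ (ag M r)) v x = 0 := by
    intro v hv x hx
    rw [G.refl]
    simp [hv x hx, hG.zero r x (fun e => hx (e ▸ hr))]
  constructor
  · rintro ⟨v, hv, rfl⟩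
    exact ⟨_, h v hv, (G.act_mul _ _ _).symm⟩
  · rintro ⟨v, hv, rfl⟩
    refine ⟨_, h v hv, ?_⟩
    rw [G.act_mul, ← LinearEquiv.mul_apply (G.act (θ _)), (G.refl r).sq (G.diag r)]
    rfl

lemma Std.in_self {T : Set S} {r : S} (hr : r ∈ T) (φ : Φ) :
    G.In T φ (G.act φ (G.α r)) ∧ G.In T φ (-G.act φ (G.α r)) :=
  ⟨⟨_, fun x hx => hG.zero r x (fun e => hx (e ▸ hr)), rfl⟩,
    ⟨-G.α r, fun x hx => by simp [hG.zero r x (fun e => hx (e ▸ hr))], map_neg _ _⟩⟩

lemma Std.fix {s t : S} (h : s ≠ t) (h2 : M s t = 2) : G.act (θ (ag M s)) (G.α t) = G.α t := by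
  have P := hG.pair s t h (by omega)
  rw [G.refl, P.xy, ← P.root.qi_two, P.root.qi_zero_iff.mpr (by simp [h2])]
  simp

lemma Std.fix_cent {J : Set S} {s : S} (hs : s ∈ J) {g : Artin M} (hg : g ∈ pa M (cent M J)) :
    G.act (θ g) (G.α s) = G.α s :=
  pa_le (H := (MulAction.stabilizer _ (G.α s)).comap (G.act.comp θ)) (fun t ht =>
    hG.fix (fun e : t = s => ht.1 (e ▸ hs)) (M.symmetric s t ▸ ht.2 s hs)) hg

lemma Std.blind {J : Set S} {y : S → F} (hy : ∀ g ∈ pa M (cent M J), G.act (θ g) y = y)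
    (h0 : ∀ x, x ∉ J → y x = 0) {g g' : Artin M} (hg : g ∈ pa M J) (hg' : g' ∈ pa M (cent M J))
    {t : S} (ht : t ∈ cent M J) : G.act (θ g * θ g') (G.α t) ≠ y := by
  have h1 : G.act (θ g) (G.α t) = G.α t :=
    pa_le (H := (MulAction.stabilizer _ (G.α t)).comap (G.act.comp θ)) (fun s hs =>
      hG.fix (fun e : s = t => ht.1 (e ▸ hs)) (ht.2 s hs)) hg
  intro e
  rw [← map_mul, (comm_cent hg hg').eq, map_mul, G.act_mul, h1, ← hy g' hg'] at e
  have h2 := congrFun ((G.act (θ g')).injective e) t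
  rw [hG.one, h0 t ht.1] at h2
  exact one_ne_zero h2

omit hG in
lemma blind_in {J U : Set S} {y : S → F} (hy : ∀ g ∈ pa M (cent M J), G.act (θ g) y = y)
    {g g' : Artin M} (hg : g ∈ pa M J) (hg' : g' ∈ pa M (cent M J))
    (h : G.In U (θ (g * g')) y) : G.In U (θ g) y := by
  obtain ⟨v, hv, e⟩ := h
  rw [(comm_cent hg hg').eq, map_mul, G.act_mul, ← hy g' hg'] at e
  exact ⟨v, hv, (G.act (θ g')).injective e⟩

lemma Std.in_chamber {s t : S} (h : s ≠ t) (h0 : M s t ≠ 0) {U : Set S} {j k : ℤ}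
    (hk : G.In U (θ (W (ag M s) (ag M t) j)) (bb (z (M s t)) (G.α s) (G.α t) k)) :
    (lt s t (j + 1) ∈ U ∨ (M s t : ℤ) ∣ k - j) ∧ (lt s t j ∈ U ∨ (M s t : ℤ) ∣ j + 1 - k) := by
  obtain ⟨v, hv, e⟩ := hk
  have P := hG.pair s t h h0
  obtain ⟨h1, h2⟩ := G.root P j
  rw [P.root.bb_adj _ _ j, ← h1, ← neg_neg (bb _ _ _ j), ← h2, ← map_neg, ← map_smul, ← map_smul,
    ← map_add] at e
  have e2 := (G.act _).injective e
  have hne : lt s t j ≠ lt s t (j + 1) := by
    rcases lt_cases s t j with h3 | h3 <;> simp [h3.1, h3.2, h, h.symm]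
  constructor
  · refine or_iff_not_imp_left.mpr (fun h3 => P.root.qi_zero_iff.mp ?_)
    simpa [e2, hG.one, hG.zero _ _ hne.symm] using hv _ h3
  · refine or_iff_not_imp_left.mpr (fun h3 => P.root.qi_zero_iff.mp ?_)
    simpa [e2, hG.one, hG.zero _ _ hne] using hv _ h3

lemma Std.vertex (s : S) : ∃ D : Coc θ, D.Base {s} := by
  classical
  let e : GP (⊥ : SimpleGraph Unit) Zm := gv ⊥ () tau
  let L : (S → F) → GP (⊥ : SimpleGraph Unit) Zm := fun v =>
    if v = G.α s ∨ v = -G.α s then e else 1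
  obtain ⟨c, hc, hc1⟩ := exists_lab (θ := θ) (fun φ r => L (G.act φ (G.α r))) (by
    intro φ r r' hr h0
    have P := hG.pair r r' hr h0
    simp only [G.act_mul, (G.root P _).1, (G.root P.swap _).1, P.root.bb_swap (G.α r),
      add_sub_add_right_eq_sub]
    refine pal_of_comm (E := fun k => L (G.act φ (bb _ (G.α r) (G.α r') k))) (fun i j _ _ => ?_)
    simp only [L]
    split_ifs <;> simp)
  let D : Coc θ :=
    { Λ := Unit
      fin := inferInstance
      Γ := ⊥
      c := c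
      c_mul := hc
      V := fun T φ => {_x | G.In T φ (G.α s)}
      V_gen := fun T φ r hr => by simp only [hG.in_gen hr]
      V_mem := fun T φ r hr => by
        rw [hc1]
        simp only [L]
        split_ifs with h
        · refine gv_mem (X := {_x : Unit | G.In T φ (G.α s)}) ?_ _
          rcases h with h | h
          · exact h ▸ (hG.in_self hr φ).1
          · simpa [h] using (hG.in_self hr φ).2
        · exact one_mem _ }
  have hy : ∀ g ∈ pa M (cent M {s}), G.act (θ g) (G.α s) = G.α s := fun g hg =>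
    hG.fix_cent (Set.mem_singleton s) hg
  have hpm : pa M {s} ≤ G.pm (G.α s) := pa_le (by
    rintro _ rfl
    exact Or.inr ((G.refl _).self (G.diag _)))
  refine ⟨D, base_of D (fun g hg y hy' t ht => ?_) (fun U g hg g' hg' x hx => blind_in hy hg hg' hx)
    (fun T U g hg hT hU hm => ?_)⟩
  · refine (hc1 _ _).trans (if_neg (not_or.mpr ⟨hG.blind hy (hG.zero s) hg hy' ht, ?_⟩))
    exact hG.blind (fun g hg => by rw [map_neg, hy g hg]) (fun x hx => by simp [hG.zero s x hx])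
      hg hy' ht
  have hV : ∀ U, ¬ {s} ⊆ U → ∀ g ∈ pa M {s}, ∀ y ∈ D.P U (θ g), y = 1 := by
    intro U hU g hg y hy
    refine PX_empty (PX_mono ?_ hy)
    rintro x ⟨v, hv, h⟩
    have h1 := hv s (by simpa using hU)
    rcases hpm hg with h2 | h2
    · rw [(G.act _).injective (h.trans h2.symm), hG.one] at h1
      exact one_ne_zero h1
    · rw [← neg_eq_iff_eq_neg, ← map_neg] at h2
      simp [(G.act _).injective (h.trans h2.symm), hG.one] at h1
  let κ : GP (⊥ : SimpleGraph Unit) Zm →* Artin M :=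
    gpLift (fun _ => zpowersHom _ (ag M s)) (fun _ _ h => h.elim)
  have key : ∀ g ∈ pa M {s}, ∀ y ∈ pa M {s}, κ (c (θ y) g) = g := by
    intro g hg
    induction hg using Subgroup.closure_induction with
    | mem x hx =>
      obtain ⟨_, rfl, rfl⟩ := hx
      intro y hy
      rw [hc1]
      simp only [L]
      rw [if_pos (by exact hpm hy)]
      simp [κ, e]
    | one => exact fun y _ => by rw [show c (θ y) 1 = 1 from D.c_one _, map_one]
    | mul x x' hx _ ihx ihx' =>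
      intro y hy
      rw [hc, map_mul, ← map_mul θ, ihx y hy, ihx' _ (mul_mem hy hx)]
    | inv x hx ih =>
      intro y hy
      rw [show c (θ y) x⁻¹ = _ from D.c_inv _ _, map_inv, ← map_mul θ]
      exact congrArg _ (ih _ (mul_mem hy (inv_mem hx)))
  obtain ⟨a, ha, b, hb, e1⟩ := hm
  have h1 := key g hg 1 (one_mem _)
  rw [hV T hT 1 (one_mem _) a (by simpa using ha), hV U hU g hg b hb, mul_one] at e1
  rw [map_one, show c 1 g = 1 from e1, map_one] at h1
  subst h1
  exact ⟨⟨1, one_mem _, 1, one_mem _, by simp⟩, fun _ => ⟨1, one_mem _, 1, one_mem _, by simp⟩⟩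

end Geo

end Pool.Agent.Lib.MP_19b52f_al.EA2
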