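import Pool.Agent.Lib.MP_19b52f_al.EA2.Base

/-! The basic cocycle of an edge with label at least three. -/

namespace Pool.Agent.Lib.MP_19b52f_al.EA2

open Pool.Agent.Lib.MP_19b52f_al.EA

variable {S : Type} {M : CoxeterMatrix S} {Φ : Type} [Group Φ] {θ : Artin M →* Φ}
  {F : Type} [Field F]

lemma Nw_pos {m i j : ℤ} (h0 : 0 < i) (h1 : i ≤ j) (h2 : j ≤ m) : Nw m i j = 1 := by
  rw [Nw, (ediv_eq 0 (by omega) (by omega)).1, (ediv_eq (-1) (by omega) (by omega)).1]
  rfl

lemma Nw_neg {m i j : ℤ} (h0 : -m < j) (h1 : j < i) (h2 : i ≤ 0) : Nw m i j = -1 := by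
  rw [Nw, (ediv_eq (-1) (by omega) (by omega)).1, (ediv_eq 0 (by omega) (by omega)).1]
  rfl

lemma Gp_one {G : Type} [Group G] (a b : G) {m : ℤ} (hm : 3 ≤ m) : Gp a b m 1 = a * a := by
  have : Nw m 2 1 = 0 := by
    rw [Nw, (ediv_eq (-1) (by omega) (by omega)).1, (ediv_eq (-1) (by omega) (by omega)).1]
    rfl
  simp [Gp, this, W, Wv]

lemma Gp_neg_one {G : Type} [Group G] (a b : G) {m : ℤ} (hm : 3 ≤ m) :
    Gp a b m (-1) = b⁻¹ * b⁻¹ := by
  have : Nw m 2 (-1) = 0 := by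
    rw [Nw, (ediv_eq (-1) (by omega) (by omega)).1, (ediv_eq (-1) (by omega) (by omega)).1]
    rfl
  have h2 : (-1 : ℤ) / 2 = -1 := by norm_num
  simp [Gp, this, W, Wv, h2]

lemma Geo.Std.edge_lab {G : Geo θ F} {z : ℕ → F} (hG : G.Std z) (G2 : Geo θ F) {s t : S}
    (hst : s ≠ t) (h0 : M s t ≠ 0) (he : G2.α t = G2.α s)
    (hp : ∀ r r', r ≠ r' → M r r' ≠ 0 → ¬ (r = s ∧ r' = t) → ¬ (r = t ∧ r' = s) →
      Pair G2.B (z (M r r')) (M r r') (G2.α r) (G2.α r')) :
    ∃ c : Φ → Artin M → GP (eG (M s t)) Zm, (∀ φ g g', c φ (g * g') = c φ g * c (φ * θ g) g') ∧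
      (∀ φ r, c φ (ag M r) = 1 ∨ ∃ k, G.act φ (G.α r) = bb (z (M s t)) (G.α s) (G.α t) k ∧
        c φ (ag M r) = lab (M s t) k) ∧
      ∀ g ∈ pa M {s, t}, ∀ j k, G.act (θ g) (G.α (lt s t j)) = bb (z (M s t)) (G.α s) (G.α t) k →
        c (θ g) (ag M (lt s t j)) = lab (M s t) k := by
  classical
  have P := hG.pair s t hst h0
  have hn : 0 < (M s t : ℤ) := by omega
  let b := bb (z (M s t)) (G.α s) (G.α t)
  let L : (S → F) → (S → F) → GP (eG (M s t)) Zm := fun v w =>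
    if h : (∃ k, v = b k) ∧ (w = G2.α s ∨ w = -G2.α s) then lab (M s t) h.1.choose else 1
  have hL1 : ∀ k w, w = G2.α s ∨ w = -G2.α s → L (b k) w = lab (M s t) k := by
    intro k w hw
    have h : (∃ l, b k = b l) ∧ (w = G2.α s ∨ w = -G2.α s) := ⟨⟨k, rfl⟩, hw⟩
    exact (dif_pos h).trans (lab_congr hn (P.dvd_of_eq h.1.choose_spec)).symm
  have hL0 : ∀ v w, L v w ≠ 1 → (∃ k, v = b k) ∧ (w = G2.α s ∨ w = -G2.α s) := by
    intro v w h
    by_contra h1
    exact h (dif_neg h1)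
  have hpm : pa M {s, t} ≤ G2.pm (G2.α s) := pa_le (by
    rintro _ (rfl | rfl)
    · exact Or.inr ((G2.refl _).self (G2.diag _))
    · exact Or.inr (he ▸ (G2.refl _).self (G2.diag _)))
  have hlt : ∀ j, G2.α (lt s t j) = G2.α s ∧ G2.α (lt t s j) = G2.α s := fun j => by
    rw [lt, lt]
    split_ifs <;> simp [he]
  have hs : ag M s ∈ pa M {s, t} := pa_mem (by simp)
  have ht : ag M t ∈ pa M {s, t} := pa_mem (by simp)
  have hL2 : ∀ v φ, ∀ g ∈ pa M {s, t},
      L v (G2.act φ (G2.act (θ g) (G2.α s))) = L v (G2.act φ (G2.α s)) := by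
    intro v φ g hg
    rcases hpm hg with h | h
    · rw [h]
    · simp only [h, map_neg, L, neg_eq_iff_eq_neg, neg_neg, or_comm]
  have key : ∀ φ, pp (fun j : ℕ => L (G.act (φ * θ (W (ag M s) (ag M t) j)) (G.α (lt s t (j + 1))))
        (G2.act (φ * θ (W (ag M s) (ag M t) j)) (G2.α (lt s t (j + 1))))) (M s t) =
      pp (fun j : ℕ => L (G.act (φ * θ (W (ag M t) (ag M s) j)) (G.α (lt t s (j + 1))))
        (G2.act (φ * θ (W (ag M t) (ag M s) j)) (G2.α (lt t s (j + 1))))) (M s t) := by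
    intro φ
    simp only [Geo.act_mul, (G.root P _).1, (G.root P.swap _).1, P.root.bb_swap (G.α s),
      add_sub_add_right_eq_sub, hlt, hL2 _ _ _ (W_mem _ _ _ hs ht), hL2 _ _ _ (W_mem _ _ _ ht hs)]
    change Pal (fun k => L (G.act φ (b k)) (G2.act φ (G2.α s))) (M s t)
    by_cases h : ∀ i j : ℕ, i < j → j < M s t → L (G.act φ (b (i + 1))) (G2.act φ (G2.α s)) = 1 ∨
        L (G.act φ (b (j + 1))) (G2.act φ (G2.α s)) = 1
    · exact pal_of_comm fun i j h1 h2 => comm_of_or (h i j h1 h2)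
    push Not at h
    obtain ⟨i, j, h1, h2, h3, h4⟩ := h
    obtain ⟨⟨x, hx⟩, hw⟩ := hL0 _ _ h3
    obtain ⟨⟨y, hy⟩, -⟩ := hL0 _ _ h4
    rcases P.rigid (G.act φ) (G.iso φ) (not_dvd (by omega) (by omega) (by omega)) hx hy with h | h
    · simpa only [b, h, hL1 _ _ hw] using lab_pal hn _
    · simpa only [b, h, hL1 _ _ hw] using lab_pal' hn _
  obtain ⟨c, hc, hc1⟩ := exists_lab (θ := θ)
    (fun φ r => L (G.act φ (G.α r)) (G2.act φ (G2.α r))) (by
    intro φ r r' hr h1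
    by_cases e1 : r = s ∧ r' = t
    · rw [e1.1, e1.2]
      exact key φ
    by_cases e2 : r = t ∧ r' = s
    · rw [e2.1, e2.2, M.symmetric t s]
      exact (key φ).symm
    have P1 := hG.pair r r' hr h1
    have P2 := hp r r' hr h1 e1 e2
    simp only [Geo.act_mul, (G.root P1 _).1, (G.root P1.swap _).1, (G2.root P2 _).1,
      (G2.root P2.swap _).1, P1.root.bb_swap (G.α r), P1.root.bb_swap (G2.α r),
      add_sub_add_right_eq_sub]
    refine pal_of_comm (E := fun k => L (G.act φ (bb _ (G.α r) (G.α r') k))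
      (G2.act φ (bb _ (G2.α r) (G2.α r') k))) (fun i j h2 h3 => comm_of_or ?_)
    by_contra h
    push Not at h
    refine not_dvd (k := i + 1 - (j + 1)) (by omega) (by omega) (by omega) (P2.dvd_of_pm ?_)
    refine Or.imp (fun e => (G2.act φ).injective e) (fun e => (G2.act φ).injective e) ?_
    rw [map_neg]
    rcases (hL0 _ _ h.1).2 with h4 | h4 <;> rcases (hL0 _ _ h.2).2 with h5 | h5 <;> simp [h4, h5])
  refine ⟨c, hc, fun φ r => ?_, fun g hg j k h => ?_⟩
  · rw [hc1]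
    refine or_iff_not_imp_left.mpr (fun h => ?_)
    obtain ⟨⟨k, hk⟩, hw⟩ := hL0 _ _ h
    exact ⟨k, hk, by rw [hk, hL1 _ _ hw]⟩
  · rw [hc1, h, (hlt j).1]
    exact hL1 _ _ (hpm hg)

lemma Geo.Std.edge {G : Geo θ F} {z : ℕ → F} (hG : G.Std z) (G2 : Geo θ F) {s t : S}
    (hst : s ≠ t) (h3 : 3 ≤ M s t) (he : G2.α t = G2.α s)
    (hp : ∀ r r', r ≠ r' → M r r' ≠ 0 → ¬ (r = s ∧ r' = t) → ¬ (r = t ∧ r' = s) →
      Pair G2.B (z (M r r')) (M r r') (G2.α r) (G2.α r'))
    (hsq : ∀ r, θ (ag M r) * θ (ag M r) = 1) : ∃ D : Coc θ, D.Base {s, t} := by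
  classical
  have h0 : M s t ≠ 0 := by omega
  have P := hG.pair s t hst h0
  have hn : 3 ≤ (M s t : ℤ) := by omega
  have hn0 : 0 < (M s t : ℤ) := by omega
  obtain ⟨c, hc, hc1, hc2⟩ := hG.edge_lab G2 hst h0 he hp
  let b := bb (z (M s t)) (G.α s) (G.α t)
  have : NeZero (M s t) := ⟨h0⟩
  let D : Coc θ :=
    { Λ := ZMod (M s t) ⊕ ZMod (M s t)
      fin := inferInstance
      Γ := eG (M s t)
      c := c
      c_mul := hc
      V := fun T φ => {x | ∃ k, G.In T φ (b k) ∧ x ∈ supp (M s t) k}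
      V_gen := fun T φ r hr => by simp only [hG.in_gen hr]
      V_mem := fun T φ r hr => by
        rcases hc1 φ r with h | ⟨k, h1, h2⟩
        · rw [h]; exact one_mem _
        · rw [h2]
          exact PX_mono (fun x hx => by exact ⟨k, by simpa [h1] using (hG.in_self hr φ).1, hx⟩)
            (lab_mem _ k) }
  have hy : ∀ k, ∀ g ∈ pa M (cent M {s, t}), G.act (θ g) (b k) = b k := fun k g hg => by
    simp only [b, bb, map_add, map_smul, hG.fix_cent (Set.mem_insert _ _) hg,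
      hG.fix_cent (Set.mem_insert_of_mem _ (Set.mem_singleton t)) hg]
  refine ⟨D, base_of D (fun g hg y hy' r hr => ?_) (fun U g hg g' hg' x hx => ?_)
    (fun T U g hg hT hU hm => ?_)⟩
  · refine (hc1 _ _).resolve_right ?_
    rintro ⟨k, h1, -⟩
    refine hG.blind (hy k) (fun x hx => ?_) hg hy' hr h1
    simp only [Set.mem_insert_iff, Set.mem_singleton_iff, not_or] at hx
    simp [b, bb, hG.zero _ _ hx.1, hG.zero _ _ hx.2]
  · obtain ⟨k, h1, h2⟩ := hx
    exact ⟨k, Geo.blind_in (hy k) hg hg' h1, h2⟩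
  have hW : ∀ j, W (ag M s) (ag M t) j ∈ pa M {s, t} := fun j =>
    W_mem _ _ _ (pa_mem (by simp)) (pa_mem (by simp))
  have hrel := W_rel hst h0
  obtain ⟨j, u, j1, j2, k1, k2, k3⟩ := walk hn0 hrel θ (hsq s) (hsq t) c hc
    (fun j => by rw [← map_lt _ _ _ (ag M)]; exact hc2 _ (hW j) _ _ (G.root P j).1)
    (fun j => by
      rw [← map_lt _ _ _ (ag M)]
      exact hc2 _ (hW j) _ _ ((G.root P j).2.trans (P.root.bb_add_m _ _ j).symm))
    (g := g) (by rwa [← Set.image_pair])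
  have hA : ∀ U, ¬ {s, t} ⊆ U → ∀ j k, G.In U (θ (W (ag M s) (ag M t) j)) (b k) →
      (lt s t j ∈ U ∧ (M s t : ℤ) ∣ k - j) ∨ (lt s t (j + 1) ∈ U ∧ (M s t : ℤ) ∣ k - j - 1) := by
    intro U hU j k hk
    obtain ⟨h1 | h1, h2 | h2⟩ := hG.in_chamber hst h0 hk
    · refine absurd ?_ hU
      rcases lt_cases s t j with h | h <;> rw [h.1] at h2 <;> rw [h.2] at h1 <;>
        rintro _ (rfl | rfl) <;> assumption
    · exact Or.inr ⟨h1, by simpa [sub_sub] using h2.neg_right⟩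
    · exact Or.inl ⟨h2, h1⟩
    · exact absurd (by simpa using h1.add h2) (not_dvd one_ne_zero (by omega) (by omega))
  have hB : ∀ U, ¬ {s, t} ⊆ U → ∀ j i : ℤ,
      Sum.inr (i : ZMod (M s t)) ∈ D.V U (θ (W (ag M s) (ag M t) j)) →
      (lt s t j ∈ U ∧ (M s t : ℤ) ∣ i - j) ∨ (lt s t (j + 1) ∈ U ∧ (M s t : ℤ) ∣ i - j - 1) := by
    rintro U hU j i ⟨k, h1, h2⟩
    have h4 : (M s t : ℤ) ∣ i - k := (cast_eq_iff _ _ _).mp (by simpa [supp] using h2)
    rcases hA U hU j k h1 with h | h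
    · exact Or.inl ⟨h.1, by simpa using h4.add h.2⟩
    · exact Or.inr ⟨h.1, by simpa [← add_sub_assoc] using h4.add h.2⟩
  obtain ⟨y, hy1, y', hy2, e⟩ := hm
  have e1 : c 1 g = y * y' := e
  have hC : ∀ i : ℤ, 2 * u i + Nw (M s t) i j ≠ 0 →
      ((t ∈ T ∧ (M s t : ℤ) ∣ i) ∨ (s ∈ T ∧ (M s t : ℤ) ∣ i - 1)) ∨
      (lt s t j ∈ U ∧ (M s t : ℤ) ∣ i - j) ∨ (lt s t (j + 1) ∈ U ∧ (M s t : ℤ) ∣ i - j - 1) := by
    intro i hi
    by_contra h
    rw [not_or] at h
    rw [← k2, e1, map_mul, prj_PX (fun h4 => h.1 (by simpa using hB T hT 0 i (by simpa using h4))) hy1,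
      prj_PX (fun h4 => h.2 (hB U hU j i (k1 ▸ h4))) hy2] at hi
    exact hi rfl
  have hnd : ∀ k : ℤ, k ≠ 0 → -M s t < k → k < M s t → ¬ (M s t : ℤ) ∣ k := fun k => not_dvd
  have mT : ∀ {X : Set S} {r}, r ∈ X → r = s ∨ r = t → ag M r ∈ pa M (X ∩ {s, t}) :=
    fun h1 h2 => pa_mem ⟨h1, h2⟩
  constructor
  · rw [k1]
    have hj : j = 0 ∨ j = 1 ∨ j = 2 ∨ j = -1 ∨ j = -2 ∨ 3 ≤ j ∨ j ≤ -3 := by omega
    have w1 : W (ag M s) (ag M t) 1 = ag M s := by simp [W]
    have w2 : W (ag M s) (ag M t) 2 = ag M s * ag M t := by simp [W]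
    have w3 : W (ag M s) (ag M t) (-1) = (ag M t)⁻¹ := by
      simp [W, show (-1 : ℤ) / 2 = -1 by norm_num]
    have w4 : W (ag M s) (ag M t) (-2) = (ag M t)⁻¹ * (ag M s)⁻¹ := by simp [W]
    have p : ∀ i, 0 < i → i ≤ j → 2 * u i + Nw (M s t) i j ≠ 0 := fun i h1 h2 => by
      rw [Nw_pos h1 h2 j2]; omega
    have q : ∀ i, j < i → i ≤ 0 → 2 * u i + Nw (M s t) i j ≠ 0 := fun i h1 h2 => by
      rw [Nw_neg j1 h1 h2]; omega
    rcases hj with rfl | rfl | rfl | rfl | rfl | hj | hj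
    · exact ⟨1, one_mem _, 1, one_mem _, by simp⟩
    · rcases hC 1 (p 1 (by omega) (by omega)) with (h | h) | h | h
      · exact absurd h.2 (hnd _ (by omega) (by omega) (by omega))
      · exact ⟨_, mT h.1 (Or.inl rfl), 1, one_mem _, by simp [w1]⟩
      · exact ⟨1, one_mem _, _, mT h.1 (by simp), by simp [w1]⟩
      · exact absurd h.2 (hnd _ (by omega) (by omega) (by omega))
    · rcases hC 1 (p 1 (by omega) (by omega)) with (h | h) | h | h
      · exact absurd h.2 (hnd _ (by omega) (by omega) (by omega))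
      · rcases hC 2 (p 2 (by omega) (by omega)) with (h' | h') | h' | h'
        · exact absurd h'.2 (hnd _ (by omega) (by omega) (by omega))
        · exact absurd h'.2 (hnd _ (by omega) (by omega) (by omega))
        · exact ⟨_, mT h.1 (Or.inl rfl), _, mT h'.1 (by simp [lt]), by simp [w2, lt]⟩
        · exact absurd h'.2 (hnd _ (by omega) (by omega) (by omega))
      all_goals exact absurd h.2 (hnd _ (by omega) (by omega) (by omega))
    · rcases hC 0 (q 0 (by omega) (by omega)) with (h | h) | h | h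
      · exact ⟨_, inv_mem (mT h.1 (Or.inr rfl)), 1, one_mem _, by simp [w3]⟩
      · exact absurd h.2 (hnd _ (by omega) (by omega) (by omega))
      · exact absurd h.2 (hnd _ (by omega) (by omega) (by omega))
      · exact ⟨1, one_mem _, _, inv_mem (mT h.1 (by simp)), by simp [w3]⟩
    · rcases hC 0 (q 0 (by omega) (by omega)) with (h | h) | h | h
      · rcases hC (-1) (q _ (by omega) (by omega)) with (h' | h') | h' | h'
        · exact absurd h'.2 (hnd _ (by omega) (by omega) (by omega))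
        · exact absurd h'.2 (hnd _ (by omega) (by omega) (by omega))
        · exact absurd h'.2 (hnd _ (by omega) (by omega) (by omega))
        · exact ⟨_, inv_mem (mT h.1 (Or.inr rfl)), _, inv_mem (mT h'.1 (by simp [lt])), by
            simp [w4, lt]⟩
      all_goals exact absurd h.2 (hnd _ (by omega) (by omega) (by omega))
    · rcases hC 2 (p 2 (by omega) (by omega)) with (h | h) | h | h <;>
        exact absurd h.2 (hnd _ (by omega) (by omega) (by omega))
    · rcases hC (-1) (q _ (by omega) (by omega)) with (h | h) | h | h <;>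
        exact absurd h.2 (hnd _ (by omega) (by omega) (by omega))
  · intro h1
    obtain rfl : j = 0 := by
      obtain ⟨h4, h5⟩ := G.root P j
      rw [← k1, h1, map_one, LinearEquiv.coe_one, id, ← P.root.bb_add_m] at h5
      rw [← k1, h1, map_one, LinearEquiv.coe_one, id, lt_succ] at h4
      have e2 := P.root.bb_one (G.α s) (G.α t)
      have e3 := P.root.bb_add_m (G.α s) (G.α t) 0
      rw [P.root.bb_zero, neg_neg] at e3
      by_contra hj
      by_cases h : Even j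
      · rw [lt, if_pos h] at h4
        exact not_dvd (k := 1 - (j + 1)) (by omega) (by omega) (by omega)
          (P.dvd_of_eq (e2.trans h4))
      · rw [lt, if_neg h] at h4 h5
        exact not_dvd (by omega) (by omega) (by omega)
          ((P.dvd_of_eq (e2.trans h5)).sub (P.dvd_of_eq (e3.trans h4)))
    have hu : u 2 = 0 := by
      by_contra h
      rcases hC 2 (by simpa using h) with (h | h) | h | h <;>
        exact absurd h.2 (hnd _ (by omega) (by omega) (by omega))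
    have hK : ∀ X, ¬ {s, t} ⊆ X → ∀ x ∈ D.P X 1,
        kp (M s t) (ag M s) (ag M t) x ∈ pa M (X ∩ {s, t}) := by
      intro X hX x hx
      refine map_mem_of_PX (Γ := eG (M s t)) _ ?_ hx
      rintro v ⟨k, h4, h5⟩ a
      have h6 : Gp (ag M s) (ag M t) (M s t) (k - 1) ∈ pa M (X ∩ {s, t}) ∧
          Gp (ag M s) (ag M t) (M s t) k ∈ pa M (X ∩ {s, t}) := by
        rcases hA X hX 0 k (by simpa using h4) with h | h
        · rw [Gp_congr hn0 hrel (l := -1) (by simpa using h.2), Gp_congr hn0 hrel h.2,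
            Gp_neg_one _ _ hn, Gp_zero]
          have := inv_mem (mT h.1 (by simp))
          exact ⟨by simpa using mul_mem this this, one_mem _⟩
        · rw [Gp_congr hn0 hrel (l := 0) (by simpa using h.2),
            Gp_congr hn0 hrel (k := k) (l := 1) (by simpa using h.2), Gp_one _ _ hn, Gp_zero]
          have := mT h.1 (by simp)
          exact ⟨one_mem _, by simpa using mul_mem this this⟩
      rcases h5 with rfl | rfl | rfl
      · rw [kp_inl hn0 hrel]; exact zpow_mem h6.1 _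
      · rw [kp_inl hn0 hrel]; exact zpow_mem h6.2 _
      · rw [kp_inr]; exact one_mem _
    refine ⟨_, hK T hT y hy1, _, hK U hU y' (h1 ▸ hy2), ?_⟩
    rw [← map_mul, ← e1]
    simpa [hu, gg, On] using k3

end Pool.Agent.Lib.MP_19b52f_al.EA2
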