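import Pool.Agent.Lib.MP_19b52f_al.EA2.Frame

/-! The amalgam step along a pair of generators with label infinity. -/

namespace Pool.Agent.Lib.MP_19b52f_al.EA2

open Pool.Agent.Lib.MP_19b52f_al.EA
open FreeGroup hiding map_mul map_inv map_one lift_unique
open SemidirectProduct (inl inr)
open scoped Pointwise

variable {S : Type} {M : CoxeterMatrix S} {Φ : Type} [Group Φ] {θ : Artin M →* Φ}

lemma sep_amalg {J : Set S} {u v : S} (huv : u ≠ v) (hN : M u v = 0)
    (g1 : ∃ D : Coc θ, D.Sep (J \ {u})) (g2 : ∃ D : Coc θ, D.Sep (J \ {v})) :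
    ∃ D : Coc θ, D.Sep J := by
  classical
  obtain ⟨D, h1, h2⟩ : ∃ D : Coc θ, D.Sep (J \ {u}) ∧ D.Sep (J \ {v}) := by
    obtain ⟨D1, h1⟩ := g1
    obtain ⟨D2, h2⟩ := g2
    exact ⟨D1.prod D2, fun φ T U g hg hc => h1 φ T U g hg (Coc.prod_left hc),
      fun φ T U g hg hc => h2 φ T U g hg (Coc.prod_right hc)⟩
  let H : Set S := {j | j ≠ u ∧ j ≠ v}
  let L : Set D.Λ → Set D.Λ := id
  let ι : GP D.Γ Zm →* GP (coneG D.Γ L) Zm := gpMap Sum.inl (fun _ _ h => h)
  let Ψ : Artin M →* Wm Φ (GP (coneG D.Γ L) Zm) :=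
    { toFun := fun g => ⟨fun φ => ι (D.c φ g), θ g⟩
      map_one' := by ext φ <;> simp
      map_mul' := fun g h => by ext φ <;> simp [D.c_mul] }
  let Tt : Wm Φ (GP (coneG D.Γ L) Zm) :=
    ⟨fun φ => gv (coneG D.Γ L) (Sum.inr (D.V H φ)) tau, 1⟩
  let Cj : Artin M →* Wm Φ (GP (coneG D.Γ L) Zm) := (MulAut.conj Tt).toMonoidHom.comp Ψ
  have hCj : ∀ g φ, (Cj g).c φ = gv (coneG D.Γ L) (Sum.inr (D.V H φ)) tau * ι (D.c φ g) *
      (gv (coneG D.Γ L) (Sum.inr (D.V H (φ * θ g))) tau)⁻¹ := by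
    intro g φ
    simp [Cj, Tt, Ψ]
  have hCja : ∀ g, (Cj g).a = θ g := by
    intro g
    simp [Cj, Tt, Ψ]
  have hH : ∀ g ∈ pa M H, Cj g = Ψ g := by
    intro g hg
    ext1
    · funext φ
      rw [hCj, D.V_inv hg, mul_inv_eq_iff_eq_mul]
      refine (comm_PX (X := Sum.inl '' D.V H φ) ?_ tau
        (gpMap_mem _ _ (fun x hx => Set.mem_image_of_mem _ hx) (D.c_mem hg φ))).eq
      rintro _ ⟨x, hx, rfl⟩
      exact hx
    · exact hCja g
  let f0 : S → Wm Φ (GP (coneG D.Γ L) Zm) := fun s => if s = u then Cj (ag M s) else Ψ (ag M s)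
  have hf1 : ∀ s, s ≠ u → f0 s = Ψ (ag M s) := fun s hs => if_neg hs
  have hf2 : ∀ s, s ≠ v → f0 s = Cj (ag M s) := fun s hs => by
    by_cases h : s = u
    · exact if_pos h
    · rw [hf1 s h, hH _ (pa_mem (show s ∈ H from ⟨h, hs⟩))]
  let Ψ' : Artin M →* Wm Φ (GP (coneG D.Γ L) Zm) := artinLift M f0 (fun s t hst h0 => by
    have hr := ag_rel M hst h0
    by_cases h : s ≠ u ∧ t ≠ u
    · rw [hf1 s h.1, hf1 t h.2, ← map_omega, ← map_omega, hr]
    · have h3 : s ≠ v ∧ t ≠ v := by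
        by_cases hs : s = u
        · exact ⟨fun e => huv (hs.symm.trans e), fun e => h0 (by rw [hs, e, hN])⟩
        · have ht : t = u := by tauto
          exact ⟨fun e => h0 (by rw [ht, e, M.symmetric, hN]), fun e => huv (ht.symm.trans e)⟩
      rw [hf2 s h3.1, hf2 t h3.2, ← map_omega, ← map_omega, hr])
  have k1 : ∀ g ∈ pa M (J \ {u}), Ψ' g = Ψ g := fun g hg =>
    eq_of_pa (fun s hs => by rw [artinLift_ag, hf1 s hs.2]) hg
  have k2 : ∀ g ∈ pa M (J \ {v}), Ψ' g = Cj g := fun g hg =>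
    eq_of_pa (fun s hs => by rw [artinLift_ag, hf2 s hs.2]) hg
  have ka : ∀ g, (Ψ' g).a = θ g := by
    intro g
    have : Wm.aHom.comp Ψ' = θ := artin_ext fun s => by
      simp only [MonoidHom.comp_apply, Ψ', artinLift_ag, f0]
      split_ifs
      · exact hCja _
      · rfl
    exact DFunLike.congr_fun this g
  let D' : Coc θ :=
    { Λ := D.Λ ⊕ Set D.Λ
      fin := by have := D.fin; infer_instance
      Γ := coneG D.Γ L
      c := fun φ g => (Ψ' g).c φ
      c_mul := fun φ g h => by rw [map_mul, Wm.mul_c, ka]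
      V := fun T φ => {x | Sum.elim (· ∈ D.V T φ) (fun _ => True) x}
      V_gen := fun T φ s h => by rw [D.V_gen T φ s h]
      V_mem := fun T φ s hs => by
        have h3 : ι (D.c φ (ag M s)) ∈ PX (coneG D.Γ L) Zm
            {x | Sum.elim (· ∈ D.V T φ) (fun _ => True) x} :=
          gpMap_mem Sum.inl _ (fun _ h => by exact h) (D.V_mem T φ s hs)
        simp only [Ψ', artinLift_ag, f0]
        split_ifs
        · rw [hCj]
          exact mul_mem (mul_mem (gv_mem (by exact trivial) tau) h3)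
            (inv_mem (gv_mem (by exact trivial) tau))
        · exact h3 }
  let ω : Set D.Λ → (Σ _ : Set D.Λ, Set (GP D.Γ Zm)) := fun c => ⟨c, PX D.Γ Zm c⟩
  have hω : ∀ c c' (d d' : GP D.Γ Zm), d • ω c = d' • ω c' → c = c' ∧ d⁻¹ * d' ∈ PX D.Γ Zm c := by
    intro c c' d d' h
    simp only [ω, Sigma.smul_mk, Sigma.mk.injEq, heq_eq_eq] at h
    obtain ⟨rfl, h⟩ := h
    exact ⟨rfl, (leftCoset_eq_iff _).mp h⟩
  let η : GP (coneG D.Γ L) Zm →* SD (GP D.Γ Zm) (Σ _ : Set D.Λ, Set (GP D.Γ Zm)) :=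
    gpLift (Sum.elim (fun x => inr.comp (gv D.Γ x))
      (fun c => zpowersHom _ (inl (of (ω c))))) (by
      have key : ∀ c, ∀ a ∈ c, ∀ k : Zm,
          Commute (inl (of (ω c)) : SD (GP D.Γ Zm) _) (inr (gv D.Γ a k)) := fun c a ha k =>
        sd_comm (by simp only [ω, Sigma.smul_mk]; rw [smul_coe_set (gv_mem ha k)])
      rintro (a | a) (b | b) h k k'
      · exact (gv_comm (Γ := D.Γ) h k k').map inr
      · exact ((key b a h k).zpow_left _).symm
      · exact (key a b h k').zpow_left _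
      · exact h.elim)
  have hη1 : ∀ x k, η (gv (coneG D.Γ L) (Sum.inl x) k) = inr (gv D.Γ x k) := fun x k =>
    gpLift_gv _ _ _ _
  have hη2 : ∀ c k, η (gv (coneG D.Γ L) (Sum.inr c) k) = inl (of (ω c)) ^ k.toAdd :=
    fun c k => gpLift_gv _ _ _ _
  have hηι : ∀ x, η (ι x) = inr x := by
    intro x
    have : η.comp ι = inr := gp_ext fun a k => by simp [ι, hη1]
    exact DFunLike.congr_fun this x
  have hr : ∀ g φ, (η ((Ψ' g).c φ)).right = D.c φ g := by
    intro g φ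
    have : (Wm.map (SemidirectProduct.rightHom.comp η)).comp Ψ' =
        (Wm.map (SemidirectProduct.rightHom.comp η)).comp Ψ := artin_ext fun s => by
      simp only [MonoidHom.comp_apply, Ψ', artinLift_ag, f0]
      split_ifs
      · ext1
        · funext ψ
          simp [hCj, hη2, Ψ]
        · exact hCja _
      · rfl
    have h3 := congrArg (fun x => Wm.c x φ) (DFunLike.congr_fun this g)
    simpa [Ψ, hηι] using h3
  let lam : Φ → Artin M → (Σ _ : Set D.Λ, Set (GP D.Γ Zm)) := fun φ g =>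
    D.c φ g • ω (D.V H (φ * θ g))
  have hJ : ∀ (X : Set S) w, pa M (X ∩ (J \ {w})) ≤ pa M (X ∩ J) := fun X w =>
    pa_mono (Set.inter_subset_inter_right _ Set.sdiff_subset)
  have hstrip : ∀ {T φ g}, g ∈ pa M (J \ {u}) ∨ g ∈ pa M (J \ {v}) → ∀ c,
      ∀ d ∈ D.P T φ, lam φ g = d • ω c → ∃ a ∈ pa M (T ∩ J), ∃ h, h ∈ pa M (J \ {u}) ∧
        h ∈ pa M (J \ {v}) ∧ g = a * h := by
    intro T φ g hg c d hd e
    obtain ⟨rfl, h3⟩ := hω _ _ _ _ e.symm
    have h4 : D.Hyp T H φ g := ⟨d, hd, _, h3, by group⟩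
    have s1 : ∀ w, H ∩ (J \ {w}) ⊆ J \ {u} := fun w j hj => ⟨hj.2.1, hj.1.1⟩
    have s2 : ∀ w, H ∩ (J \ {w}) ⊆ J \ {v} := fun w j hj => ⟨hj.2.1, hj.1.2⟩
    rcases hg with hg | hg
    · obtain ⟨a, ha, b, hb, e⟩ := h1 _ _ _ _ hg h4
      exact ⟨a, hJ _ _ ha, b, pa_mono (s1 _) hb, pa_mono (s2 _) hb, e⟩
    · obtain ⟨a, ha, b, hb, e⟩ := h2 _ _ _ _ hg h4
      exact ⟨a, hJ _ _ ha, b, pa_mono (s1 _) hb, pa_mono (s2 _) hb, e⟩
  have hAlt : ∀ φ, AltData (pa M (J \ {u})) (pa M (J \ {v}))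
      (fun g => (η ((Ψ' g).c φ)).left) (lam φ) := fun φ =>
    { h1 := by simp
      h2 := fun g g' hg => by simp [k1 g' hg, Ψ, hηι]
      h3 := fun g g' hg => by
        rw [map_mul, Wm.mul_c, k2 g' hg, hCj, map_mul, map_mul, map_mul, map_inv, hη2, hη2, hηι,
          toAdd_ofAdd, zpow_one, zpow_one, sd_left, hr, ka]
        simp only [lam, D.c_mul, map_mul, mul_assoc]
      h4 := fun g g' hg e => by
        have e' : lam (φ * θ g) g' = (1 : GP D.Γ Zm) • ω (D.V H (φ * θ g)) := by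
          simp only [lam, D.c_mul, map_mul, mul_smul, smul_left_cancel_iff, ← mul_assoc] at e
          rw [one_smul]; exact e
        obtain ⟨a, ha, h, h3, h4, rfl⟩ := hstrip (T := ∅) hg _ 1 (one_mem _) e'
        rw [pa_empty (pa_mono Set.inter_subset_left ha), one_mul]
        exact ⟨h3, h4⟩ }
  let OX : Set S → Φ → Set (Σ _ : Set D.Λ, Set (GP D.Γ Zm)) := fun T φ =>
    {x | ∃ c, ∃ d ∈ D.P T φ, x = d • ω c}
  have hOX : ∀ T φ, ∀ y ∈ D'.P T φ, (η y).left ∈ gen (OX T φ) ∧ (η y).right ∈ D.P T φ := by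
    intro T φ y hy
    refine map_mem_of_PX (Γ := coneG D.Γ L) η (S := sdSub (OX T φ) (D.P T φ) ?_) ?_ hy
    · rintro d hd _ ⟨c, d', hd', rfl⟩
      exact ⟨c, d * d', mul_mem hd hd', (mul_smul _ _ _).symm⟩
    · rintro (x | c) hx k
      · rw [hη1]
        exact ⟨one_mem _, gv_mem (Γ := D.Γ) (X := D.V T φ) (v := x) hx k⟩
      · rw [hη2]
        refine zpow_mem ?_ _
        exact ⟨Subgroup.subset_closure ⟨_, ⟨c, 1, one_mem _, (one_smul _ _).symm⟩, rfl⟩,
          one_mem _⟩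
  have main : ∀ T U k φ g, Syl (pa M (J \ {u})) (pa M (J \ {v})) (k + 1) g →
      D'.Hyp T U φ g → Mem2 (pa M (T ∩ J)) (pa M (U ∩ J)) g := by
    intro T U k
    induction k with
    | zero =>
      intro φ g hg hm
      have h3 : D.Hyp T U φ g := by
        rw [Coc.Hyp, ← hr]
        exact Mem2.map (G := GP (coneG D.Γ L) Zm) (SemidirectProduct.rightHom.comp η)
          (fun y hy => (hOX _ _ y hy).2) (fun y hy => (hOX _ _ y hy).2) hm
      rcases hg.one with hg | hg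
      · exact (h1 _ _ _ _ hg h3).map (MonoidHom.id _) (hJ _ _) (hJ _ _)
      · exact (h2 _ _ _ _ hg h3).map (MonoidHom.id _) (hJ _ _) (hJ _ _)
    | succ k ih =>
      intro φ g hg hm
      obtain ⟨y, hy, y', hy', e⟩ := id hm
      have e1 : η ((Ψ' g).c φ) = η y * η y' := (congrArg η e).trans (map_mul η y y')
      have e2 : D.c φ g = (η y).right * (η y').right := by rw [← hr, e1]; rfl
      rcases (hAlt φ).strip (Y := {x | ∃ z ∈ OX U (φ * θ g), x = (η y).right • z}) hg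
        (hOX _ _ y hy).1 (freeAct_mem_gen (η y).right (fun z hz => by exact ⟨z, hz, rfl⟩)
          (hOX _ _ y' hy').1)
        (by rw [e1]; rfl) with h3 | ⟨p, r, hp, rfl, ⟨c, d, hd, h3⟩, h4⟩ |
          ⟨r, p, hp, rfl, ⟨_, ⟨c, d, hd, rfl⟩, h3⟩, h4⟩
      · exact ih φ g h3 hm
      · obtain ⟨a, ha, h, h5, h6, rfl⟩ := hstrip hp c d hd h3
        have h7 := ih (φ * θ a) (h * r) (h4 h h5 h6) (by
          simpa [mul_assoc] using hm.left (pa_mono Set.inter_subset_left ha))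
        simpa [mul_assoc] using h7.mul ha (one_mem _)
      · have h8 : lam (φ * θ (r * p)) p⁻¹ = ((η y').right⁻¹ * d) • ω c := by
          have e3 := D.c_mul φ (r * p) p⁻¹
          rw [mul_inv_cancel_right, ← inv_mul_eq_iff_eq_mul] at e3
          have e4 : φ * θ (r * p) * θ p⁻¹ = φ * θ r := by simp [mul_assoc]
          simp only [lam] at h3 ⊢
          rw [e4, ← e3, mul_smul, h3, e2, smul_smul, smul_smul]
          congr 1
          group
        obtain ⟨a, ha, h, h5, h6, h9⟩ := hstrip (by simpa using hp) c _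
          (mul_mem (inv_mem (hOX _ _ y' hy').2) hd) h8
        have h10 : p = h⁻¹ * a⁻¹ := by rw [← mul_inv_rev, ← h9, inv_inv]
        subst h10
        have h7 := ih φ (r * h⁻¹) (h4 _ (inv_mem h5) (inv_mem h6)) (by
          simpa [mul_assoc] using hm.right (pa_mono Set.inter_subset_left ha))
        simpa [mul_assoc] using h7.mul (one_mem _) (inv_mem ha)
  refine ⟨D', fun φ T U g hg hm => ?_⟩
  have hg' : g ∈ pa M (J \ {u}) ⊔ pa M (J \ {v}) := by
    refine pa_le (fun s hs => ?_) hg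
    by_cases h : s = u
    · exact Subgroup.mem_sup_right (pa_mem ⟨hs, fun e => huv (h.symm.trans e)⟩)
    · exact Subgroup.mem_sup_left (pa_mem ⟨hs, h⟩)
  obtain ⟨k, L', h3, h4, h5⟩ := syl_exists hg'
  exact main T U k φ g ⟨L', by omega, h4, h5⟩ hm

end Pool.Agent.Lib.MP_19b52f_al.EA2
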