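import Pool.Agent.Lib.MP_19b52f_al.EA2.Edge
import Pool.Agent.Lib.MP_19b52f_al.EA2.Glue
import Pool.Agent.Lib.MP_19b52f_al.EA.Main

/-! The finite reflection model, the induction, and the embedding theorems. -/

namespace Pool.Agent.Lib.MP_19b52f_al.EA2

open Pool.Agent.Lib.MP_19b52f_al.EA

variable {S : Type} {M : CoxeterMatrix S}

/-- The isometry group of a bilinear form. -/
def isoG {F V : Type} [Field F] [AddCommGroup V] [Module F V] (B : V →ₗ[F] V →ₗ[F] F) :
    Subgroup (V ≃ₗ[F] V) where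
  carrier := {f | ∀ v w, B (f v) (f w) = B v w}
  one_mem' := fun _ _ => rfl
  mul_mem' := fun {f g} hf hg v w => (hf _ _).trans (hg v w)
  inv_mem' := fun {f} hf v w => by rw [← hf]; simp

lemma exists_rep {F V : Type} [Field F] [AddCommGroup V] [Module F V] (B : V →ₗ[F] V →ₗ[F] F)
    (hB : ∀ v w, B v w = B w v) (α : S → V) (h2 : ∀ r, B (α r) (α r) = 2) (z : ℕ → F)
    (h : ∀ r r', r ≠ r' → M r r' ≠ 0 → α r = α r' ∨ Pair B (z (M r r')) (M r r') (α r) (α r')) :
    ∃ ρ : Artin M →* isoG B, ∀ r, IsRefl B (α r) (ρ (ag M r)) := by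
  have h1 : ∀ r, IsRefl B (α r) (Module.reflection (h2 r)) := fun r v =>
    Module.reflection_apply _ _
  refine ⟨artinLift M (fun r => ⟨Module.reflection (h2 r), fun v w => ?_⟩) (fun r r' hr h0 => ?_),
    fun r => by simpa using h1 r⟩
  · rw [h1, h1]
    simp only [map_sub, map_smul, LinearMap.sub_apply, LinearMap.smul_apply, smul_eq_mul, h2,
      hB v (α r)]
    ring
  · refine (isoG B).subtype_injective ?_
    rw [map_omega, map_omega, omega_eq_W, omega_eq_W]
    rcases h r r' hr h0 with e | P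
    · simp [e]
    · exact P.braid (h1 r) (h1 r')

lemma exists_roots [Finite S] (M : CoxeterMatrix S) : ∃ (p : ℕ) (_ : Fact p.Prime)
    (z : ℕ → ZMod p), ∀ r r', r ≠ r' → M r r' ≠ 0 → Root (z (M r r')) (M r r') := by
  obtain ⟨n, hn0, hn⟩ := exists_modulus M
  obtain ⟨p, hp, -, h⟩ := Nat.exists_prime_gt_modEq_one (k := 2 * n) 0 (by omega)
  have : Fact p.Prime := ⟨hp⟩
  obtain ⟨ζ, hζ⟩ := HasEnoughRootsOfUnity.exists_primitiveRoot (ZMod p) (p - 1)
  have h1 : 2 * n ∣ p - 1 := (Nat.modEq_iff_dvd' hp.one_le).mp h.symm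
  refine ⟨p, this, fun m => ζ ^ ((p - 1) / (2 * m)), fun r r' hr h0 => root_of_prim ?_ ?_⟩
  · have := M.off_diagonal r r' hr
    omega
  · exact hζ.pow (by have := hp.two_le; omega)
      (Nat.div_mul_cancel ((Nat.mul_dvd_mul_left 2 (hn r r' h0)).trans h1)).symm

variable (hT : ∀ s t r, s ≠ t → s ≠ r → t ≠ r → M s t ≠ 0 → M s r ≠ 0 → M t r ≠ 0 →
  M s t = 2 ∨ M s r = 2)
include hT

lemma exists_model [Finite S] : ∃ (Φ : Type) (_ : Group Φ) (_ : Finite Φ) (θ : Artin M →* Φ),
    (∀ s, ∃ D : Coc θ, D.Base {s}) ∧ ∀ s t, s ≠ t → 3 ≤ M s t → ∃ D : Coc θ, D.Base {s, t} := by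
  classical
  have := Fintype.ofFinite S
  obtain ⟨p, _, z, hz⟩ := exists_roots M
  let f : S × S → S → S := fun e x => if x = e.2 ∧ 3 ≤ M e.1 e.2 then e.1 else x
  let μ : S × S → S → S → ℕ := fun e x y =>
    if M x y ≠ 0 then M x y else if x = e.1 then M e.2 y else if y = e.1 then M e.2 x else 0
  let B : S × S → (S → ZMod p) →ₗ[ZMod p] (S → ZMod p) →ₗ[ZMod p] ZMod p := fun e =>
    Matrix.toBilin' (Matrix.of fun x y => if x = y then 2 else -(z (μ e x y) + (z (μ e x y))⁻¹))
  let α : S × S → S → S → ZMod p := fun e r => Pi.single (f e r) 1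
  have hμ : ∀ e x y, x ≠ y → μ e x y = μ e y x := by
    intro e x y h
    simp only [μ, M.symmetric y x]
    by_cases h1 : x = e.1
    · have : y ≠ e.1 := fun h2 => h (h1.trans h2.symm)
      simp [h1, this]
    · simp [h1]
  have hB : ∀ e v w, B e v w = B e w v := by
    intro e v w
    simp only [B, Matrix.toBilin'_apply, Matrix.of_apply]
    rw [Finset.sum_comm]
    refine Finset.sum_congr rfl fun x _ => Finset.sum_congr rfl fun y _ => ?_
    by_cases h : x = y
    · simp [h, mul_comm, mul_left_comm]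
    · rw [if_neg h, if_neg (Ne.symm h), hμ e x y h]
      ring
  have h2 : ∀ e r, B e (α e r) (α e r) = 2 := fun e r => by simp [B, α]
  have hP : ∀ e r r', r ≠ r' → M r r' ≠ 0 → f e r ≠ f e r' →
      Pair (B e) (z (M r r')) (M r r') (α e r) (α e r') := by
    have key : ∀ e r r', r ≠ r' → M r r' ≠ 0 → f e r ≠ f e r' → ¬ (r' = e.2 ∧ 3 ≤ M e.1 e.2) →
        μ e (f e r) (f e r') = M r r' := by
      rintro ⟨s, t⟩ r r' hr h0 hf h1
      simp only [f, if_neg h1] at hf ⊢
      by_cases h3 : r = t ∧ 3 ≤ M s t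
      · rw [if_pos h3] at hf ⊢
        obtain ⟨rfl, h3⟩ := h3
        have hst : s ≠ r := fun e => by simp [e] at h3
        by_cases h4 : M s r' = 0
        · simp [μ, h4]
        · have h5 := hT s r r' hst hf hr (by omega) h4 h0
          have h6 := hT r s r' hst.symm hr hf (by rw [M.symmetric]; omega) h0 h4
          rw [M.symmetric r s] at h6
          simp only [μ, if_pos h4]
          omega
      · simp [if_neg h3, μ, h0]
    intro e r r' hr h0 hf
    refine ⟨hz r r' hr h0, hB e, h2 e r, h2 e r', ?_⟩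
    have : μ e (f e r) (f e r') = M r r' := by
      by_cases h1 : r' = e.2 ∧ 3 ≤ M e.1 e.2
      · rw [hμ _ _ _ hf, M.symmetric r r']
        exact key e r' r hr.symm (M.symmetric r r' ▸ h0) hf.symm (fun h => hr (h.1.trans h1.1.symm))
      · exact key e r r' hr h0 hf h1
    simp [B, α, hf, this]
  choose ρ hρ using fun e => exists_rep (M := M) (B e) (hB e) (α e) (h2 e) z (fun r r' hr h0 =>
    (em (f e r = f e r')).imp (fun h => by simp only [α, h]) (hP e r r' hr h0))
  let θ : Artin M →* ∀ e, isoG (B e) := MonoidHom.pi ρ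
  let G : S × S → Geo θ (ZMod p) := fun e =>
    { B := B e
      α := α e
      act := (isoG (B e)).subtype.comp (Pi.evalMonoidHom _ e)
      iso := fun φ => (φ e).2
      refl := hρ e
      diag := h2 e }
  have hf : ∀ s x, f (s, s) x = x := fun s x => by simp [f]
  have hG : ∀ s, (G (s, s)).Std z := fun s =>
    ⟨fun r => by simp [G, α, hf], fun r x h => by simp [G, α, hf, h],
      fun r r' hr h0 => hP _ r r' hr h0 (by simpa [hf] using hr)⟩
  have : Finite ((S → ZMod p) ≃ₗ[ZMod p] (S → ZMod p)) := DFunLike.finite _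
  refine ⟨_, inferInstance, inferInstance, θ, fun s => (hG s).vertex s, fun s t hst h3 => ?_⟩
  refine (hG s).edge (G (s, t)) hst h3 (by simp [G, α, f, h3, hst]) (fun r r' hr h0 e1 e2 => ?_)
    (fun r => funext fun e => Subtype.ext ((hρ e r).sq (h2 e r)))
  refine hP _ r r' hr h0 ?_
  simp only [f]
  split_ifs with h4 h5 h5
  · exact absurd (h4.1.trans h5.1.symm) hr
  · exact fun e => e2 ⟨h4.1, e.symm⟩
  · exact fun e => e1 ⟨e, h5.1⟩
  · exact hr

lemma exists_sep [Finite S] : ∃ (Φ : Type) (_ : Group Φ) (_ : Finite Φ) (θ : Artin M →* Φ)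
    (D : Coc θ), D.Sep Set.univ := by
  classical
  have := Fintype.ofFinite S
  obtain ⟨Φ, _, _, θ, h1, h2⟩ := exists_model hT
  have clique : ∀ J : Finset S, (∀ u ∈ J, ∀ v ∈ J, M u v ≠ 0) → ∃ D : Coc θ, D.SepP J := by
    intro J
    induction J using Finset.strongInduction with
    | H J ih =>
      intro hJ
      rcases J.eq_empty_or_nonempty with rfl | ⟨u, hu⟩
      · refine ⟨⟨Unit, inferInstance, ⊥, fun _ _ => 1, by simp, fun _ _ => ∅, fun _ _ _ _ => rfl,
          fun _ _ _ _ => one_mem _⟩, fun _ _ _ g _ hg _ _ => ?_⟩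
        exact ⟨1, one_mem _, 1, one_mem _, by rw [pa_empty (g := g) (by simpa using hg), mul_one]⟩
      have ih' : ∀ J' ⊆ J.erase u, ∃ D : Coc θ, D.SepP (J' : Finset S) := fun J' h =>
        ih J' (h.trans_ssubset (Finset.erase_ssubset hu)) (fun a ha b hb =>
          hJ a (Finset.mem_of_mem_erase (h ha)) b (Finset.mem_of_mem_erase (h hb)))
      by_cases h3 : ∀ v ∈ J, v ≠ u → M u v = 2
      · have e : (J : Set S) = ({u} : Set S) ∪ ((J.erase u : Finset S) : Set S) := by
          rw [Set.singleton_union, ← Finset.coe_insert, Finset.insert_erase hu]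
        obtain ⟨D, hD⟩ := h1 u
        rw [e]
        refine sepP_join (fun t ht => ?_) hD.sepP (ih' _ subset_rfl)
        have ht' := Finset.mem_erase.mp (Finset.mem_coe.mp ht)
        exact ⟨ht'.1, by rintro _ rfl; exact h3 t ht'.2 ht'.1⟩
      · push Not at h3
        obtain ⟨v, hv, hvu, h3⟩ := h3
        have h4 := hJ u hu v hv
        have h5 := M.off_diagonal u v hvu.symm
        obtain ⟨D, hD⟩ := h2 u v hvu.symm (by omega)
        have e : (J : Set S) = {u, v} ∪ (((J.erase u).erase v : Finset S) : Set S) := by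
          ext j
          by_cases e1 : j = u
          · simp [e1, hu]
          · by_cases e2 : j = v <;> simp [e1, e2, hv]
        rw [e]
        refine sepP_join (fun t ht => ?_) hD.sepP (ih' _ (Finset.erase_subset _ _))
        obtain ⟨⟨t3, t2⟩, t1⟩ : (t ∈ J ∧ t ≠ u) ∧ t ≠ v := by simpa using ht
        refine ⟨by simp [t1, t2], ?_⟩
        rintro _ (rfl | rfl)
        · exact (hT _ v t hvu.symm t2.symm t1.symm h4 (hJ _ hu t t3) (hJ v hv t t3)).resolve_left h3
        · exact (hT _ u t hvu t1.symm t2.symm (hJ _ hv u hu) (hJ _ hv t t3)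
            (hJ u hu t t3)).resolve_left (M.symmetric u _ ▸ h3)
  have all : ∀ J : Finset S, ∃ D : Coc θ, D.Sep J := by
    intro J
    induction J using Finset.strongInduction with
    | H J ih =>
      by_cases h : ∀ u ∈ J, ∀ v ∈ J, M u v ≠ 0
      · obtain ⟨D, hD⟩ := clique J h
        exact ⟨D, fun φ T U g hg hm => hD φ T U g 1 hg (one_mem _) (by rwa [mul_one])⟩
      · push Not at h
        obtain ⟨u, hu, v, hv, h⟩ := h
        refine sep_amalg (fun e : u = v => by simp [e] at h) h ?_ ?_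
        · simpa using ih _ (Finset.erase_ssubset hu)
        · simpa using ih _ (Finset.erase_ssubset hv)
  obtain ⟨D, hD⟩ := all Finset.univ
  exact ⟨Φ, inferInstance, inferInstance, θ, D, by simpa using hD⟩

omit hT in
lemma gp_raag {Λ : Type} [Finite Λ] (Γ : SimpleGraph Λ) : ∃ (k : ℕ) (R : CoxeterMatrix (Fin k))
    (p : GP Γ Zm →* Artin R), IsRightAngled R ∧ Function.Injective p := by
  classical
  obtain ⟨k, ⟨e⟩⟩ := Finite.exists_equiv_fin Λ
  have hR : ∀ i j, i ≠ j → raMatrix Γ e.symm i j =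
      if Γ.Adj (e.symm i) (e.symm j) then 2 else 0 := fun i j h => by
    simp [raMatrix, h]
  let p : GP Γ Zm →* Artin (raMatrix Γ e.symm) :=
    gpLift (fun v => zpowersHom _ (ag _ (e v))) (fun v w h a b => by
      have hne : e v ≠ e w := e.injective.ne h.ne
      have h2 : raMatrix Γ e.symm (e v) (e w) = 2 := by simp [hR _ _ hne, h]
      have := ag_rel (raMatrix Γ e.symm) hne (by rw [h2]; decide)
      rw [h2, omega_two, omega_two] at this
      exact Commute.zpow_zpow this _ _)
  let q : Artin (raMatrix Γ e.symm) →* GP Γ Zm :=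
    artinLift _ (fun i => gv Γ (e.symm i) tau) (fun i j h h0 => by
      rw [hR i j h] at h0 ⊢
      split_ifs at h0 ⊢ with h2
      · rw [omega_two, omega_two]
        exact (gv_comm h2 _ _).eq
      · exact absurd rfl h0)
  have hqp : q.comp p = MonoidHom.id _ := gp_ext fun v a => by
    simp only [MonoidHom.comp_apply, p, gpLift_gv, zpowersHom_apply, map_zpow, q, artinLift_ag,
      Equiv.symm_apply_apply, MonoidHom.id_apply]
    rw [← map_zpow, ← ofAdd_zsmul]
    simp
  refine ⟨k, raMatrix Γ e.symm, p, fun i j h => ?_, ?_⟩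
  · rw [hR i j h]
    split_ifs <;> simp
  · have hp : Function.LeftInverse q p := fun x => DFunLike.congr_fun hqp x
    exact hp.injective

theorem virtual_embedding [Finite S] :
    (∃ (H : Subgroup (Artin M)) (k : ℕ) (R : CoxeterMatrix (Fin k)) (f : H →* Artin R),
      H.FiniteIndex ∧ IsRightAngled R ∧ Function.Injective f) ∧
    ∃ (Q : Type) (_ : Group Q) (_ : Finite Q) (n : ℕ)
      (f : Artin M →* RegularWreathProduct (Artin (CoxeterMatrix.A n)) Q), Function.Injective f := by
  obtain ⟨Φ, _, _, θ, D, hD⟩ := exists_sep hT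
  have := D.fin
  have key : ∀ g, θ g = 1 → D.c 1 g = 1 → g = 1 := by
    intro g h1 h2
    obtain ⟨a, ha, b, hb, e⟩ := hD 1 ∅ ∅ g (pa_univ g) ⟨1, one_mem _, 1, one_mem _, by simp [h2]⟩
    rw [e, pa_empty (pa_mono Set.inter_subset_left ha), pa_empty (pa_mono Set.inter_subset_left hb),
      mul_one]
  constructor
  · obtain ⟨k, R, p, h1, h2⟩ := gp_raag D.Γ
    refine ⟨θ.ker, k, R, p.comp (MonoidHom.mk' (fun g => D.c 1 g) (fun g h => ?_)), inferInstance,
      h1, h2.comp ?_⟩
    · rw [Subgroup.coe_mul, D.c_mul, g.2, mul_one]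
    · exact (injective_iff_map_eq_one _).mpr (fun g hg => Subtype.ext (key g g.2 hg))
  · obtain ⟨n, p, hp⟩ := emb_iff.mp (emb_gp (Γ := D.Γ) emb_int)
    refine ⟨Φ, inferInstance, inferInstance, n,
      MonoidHom.mk' (fun g => ⟨fun q => p (D.c q⁻¹ g), θ g⟩) (fun g h => ?_), ?_⟩
    · ext q <;> simp [D.c_mul]
    · refine (injective_iff_map_eq_one _).mpr (fun g hg => key g (congrArg (·.right) hg) (hp ?_))
      simpa using congrFun (congrArg (·.left) hg) 1

end Pool.Agent.Lib.MP_19b52f_al.EA2
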