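import Pool.Agent.Lib.MP_19b52f_al.EA.Amalg

/-! Cocycles of an Artin group over a finite quotient, with values in right-angled Artin groups. -/

namespace Pool.Agent.Lib.MP_19b52f_al.EA2

open Pool.Agent.Lib.MP_19b52f_al.EA

/-- Cocycle group: functions on a group with a right shift. -/
@[ext] structure Wm (Φ R : Type) where
  c : Φ → R
  a : Φ

namespace Wm
variable {Φ R : Type} [Group Φ] [Group R]

instance instMulWm : Mul (Wm Φ R) := ⟨fun x y => ⟨fun φ => x.c φ * y.c (φ * x.a), x.a * y.a⟩⟩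
instance instOneWm : One (Wm Φ R) := ⟨⟨fun _ => 1, 1⟩⟩
instance instInvWm : Inv (Wm Φ R) := ⟨fun x => ⟨fun φ => (x.c (φ * x.a⁻¹))⁻¹, x.a⁻¹⟩⟩

@[simp] lemma mul_c (x y : Wm Φ R) (φ : Φ) : (x * y).c φ = x.c φ * y.c (φ * x.a) := rfl
@[simp] lemma mul_a (x y : Wm Φ R) : (x * y).a = x.a * y.a := rfl
@[simp] lemma one_c (φ : Φ) : (1 : Wm Φ R).c φ = 1 := rfl
@[simp] lemma one_a : (1 : Wm Φ R).a = 1 := rfl
@[simp] lemma inv_c (x : Wm Φ R) (φ : Φ) : (x⁻¹).c φ = (x.c (φ * x.a⁻¹))⁻¹ := rfl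
@[simp] lemma inv_a (x : Wm Φ R) : (x⁻¹).a = x.a⁻¹ := rfl

instance instGroupWm : Group (Wm Φ R) where
  mul_assoc x y z := by ext φ <;> simp [mul_assoc]
  one_mul x := by ext φ <;> simp
  mul_one x := by ext φ <;> simp
  inv_mul_cancel x := by ext φ <;> simp

/-- Apply a homomorphism to the values. -/
def map {R' : Type} [Group R'] (f : R →* R') : Wm Φ R →* Wm Φ R' where
  toFun x := ⟨fun φ => f (x.c φ), x.a⟩
  map_one' := by ext φ <;> simp
  map_mul' x y := by ext φ <;> simp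

@[simp] lemma map_c {R' : Type} [Group R'] (f : R →* R') (x : Wm Φ R) (φ : Φ) :
    (map f x).c φ = f (x.c φ) := rfl
@[simp] lemma map_a {R' : Type} [Group R'] (f : R →* R') (x : Wm Φ R) : (map f x).a = x.a := rfl

/-- The shift part as a homomorphism. -/
def aHom : Wm Φ R →* Φ where
  toFun x := x.a
  map_one' := rfl
  map_mul' _ _ := rfl

end Wm

/-- The infinite cyclic group. -/
abbrev Zm : Type := Multiplicative ℤ

/-- Its generator. -/
abbrev tau : Zm := Multiplicative.ofAdd 1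

variable {S : Type} {M : CoxeterMatrix S}

variable (M) in
/-- Standard parabolic subgroups. -/
def pa (T : Set S) : Subgroup (Artin M) := Subgroup.closure (ag M '' T)

lemma pa_mem {T : Set S} {s : S} (h : s ∈ T) : ag M s ∈ pa M T :=
  Subgroup.subset_closure ⟨s, h, rfl⟩

lemma pa_le {T : Set S} {H : Subgroup (Artin M)} (h : ∀ s ∈ T, ag M s ∈ H) : pa M T ≤ H := by
  rw [pa, Subgroup.closure_le]
  rintro _ ⟨s, hs, rfl⟩
  exact h s hs

lemma pa_mono {T U : Set S} (h : T ⊆ U) : pa M T ≤ pa M U := pa_le fun _ hs => pa_mem (h hs)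

lemma pa_univ (g : Artin M) : g ∈ pa M Set.univ := mem_of_ag (fun _ => pa_mem (Set.mem_univ _)) g

lemma pa_empty {g : Artin M} (h : g ∈ pa M ∅) : g = 1 :=
  Subgroup.mem_bot.mp (pa_le (H := ⊥) (fun _ hv => hv.elim) h)

lemma eq_of_pa {G : Type} [Group G] {f f' : Artin M →* G} {T : Set S}
    (h : ∀ s ∈ T, f (ag M s) = f' (ag M s)) {g : Artin M} (hg : g ∈ pa M T) :
    f g = f' g := pa_le (H := f.eqLocus f') h hg

variable (M) in
/-- The generators outside `J` that commute with `J`. -/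
def cent (J : Set S) : Set S := {t | t ∉ J ∧ ∀ s ∈ J, M s t = 2}

lemma comm_cent {J : Set S} {x y : Artin M} (hx : x ∈ pa M J) (hy : y ∈ pa M (cent M J)) :
    Commute x y := by
  refine (pa_le (H := Subgroup.centralizer {y}) (fun s hs => ?_) hx _ rfl).symm
  rintro _ rfl
  refine (pa_le (H := Subgroup.centralizer {ag M s}) (fun t ht => ?_) hy _ rfl).symm
  rintro _ rfl
  have hst : s ≠ t := fun e => ht.1 (e ▸ hs)
  have := ag_rel M hst (by rw [ht.2 s hs]; decide)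
  rwa [ht.2 s hs, omega_two, omega_two] at this

variable {Φ : Type} [Group Φ]

/-- A cocycle with values in a right-angled Artin group, with vertex sets for the parabolic
subgroups. -/
structure Coc (θ : Artin M →* Φ) where
  Λ : Type
  fin : Finite Λ
  Γ : SimpleGraph Λ
  c : Φ → Artin M → GP Γ Zm
  c_mul : ∀ φ g h, c φ (g * h) = c φ g * c (φ * θ g) h
  V : Set S → Φ → Set Λ
  V_gen : ∀ T φ s, s ∈ T → V T (φ * θ (ag M s)) = V T φ
  V_mem : ∀ T φ s, s ∈ T → c φ (ag M s) ∈ PX Γ Zm (V T φ)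

variable {θ : Artin M →* Φ}

namespace Coc
variable (D : Coc θ)

/-- The parabolic subgroup attached to `T` at `φ`. -/
abbrev P (T : Set S) (φ : Φ) : Subgroup (GP D.Γ Zm) := PX D.Γ Zm (D.V T φ)

@[simp] lemma c_one (φ) : D.c φ 1 = 1 := by
  have := D.c_mul φ 1 1
  simpa using this

lemma c_inv (φ) (g : Artin M) : D.c φ g⁻¹ = (D.c (φ * θ g⁻¹) g)⁻¹ := by
  have := D.c_mul φ g⁻¹ g
  rw [inv_mul_cancel, c_one] at this
  exact eq_inv_of_mul_eq_one_left this.symm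

lemma V_inv {T : Set S} {g : Artin M} (hg : g ∈ pa M T) (φ) : D.V T (φ * θ g) = D.V T φ := by
  induction hg using Subgroup.closure_induction generalizing φ with
  | mem x hx =>
    obtain ⟨s, hs, rfl⟩ := hx
    exact D.V_gen T φ s hs
  | one => simp
  | mul x y _ _ ihx ihy => rw [map_mul, ← mul_assoc, ihy, ihx]
  | inv x _ ih => rw [← ih]; simp

lemma P_inv {T : Set S} {g : Artin M} (hg : g ∈ pa M T) (φ) : D.P T (φ * θ g) = D.P T φ := by
  rw [P, D.V_inv hg]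

lemma c_mem {T : Set S} {g : Artin M} (hg : g ∈ pa M T) (φ) : D.c φ g ∈ D.P T φ := by
  induction hg using Subgroup.closure_induction generalizing φ with
  | mem x hx =>
    obtain ⟨s, hs, rfl⟩ := hx
    exact D.V_mem T φ s hs
  | one => simp
  | mul x y hx _ ihx ihy =>
    rw [D.c_mul]
    exact mul_mem (ihx φ) (D.P_inv hx φ ▸ ihy (φ * θ x))
  | inv x hx ih =>
    rw [c_inv]
    exact inv_mem (D.P_inv (inv_mem hx) φ ▸ ih _)

/-- The value of the cocycle lies in the product of the two parabolic subgroups. -/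
def Hyp (T U : Set S) (φ : Φ) (g : Artin M) : Prop :=
  Mem2 (D.P T φ) (D.P U (φ * θ g)) (D.c φ g)

variable {D} in
lemma Hyp.left {T U φ g} (h : D.Hyp T U φ g) {a} (ha : a ∈ pa M T) :
    D.Hyp T U (φ * θ a) (a⁻¹ * g) := by
  have e : φ * θ a * θ (a⁻¹ * g) = φ * θ g := by simp [mul_assoc]
  have e2 : φ * θ a * θ a⁻¹ = φ := by simp
  rw [Hyp, e, D.c_mul, e2]
  simpa using (D.P_inv ha φ ▸ h : Mem2 (D.P T (φ * θ a)) _ _).mul (D.c_mem (inv_mem ha) _)
    (one_mem _)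

variable {D} in
lemma Hyp.right {T U φ g} (h : D.Hyp T U φ g) {b} (hb : b ∈ pa M U) : D.Hyp T U φ (g * b) := by
  rw [Hyp, D.c_mul, map_mul, ← mul_assoc, D.P_inv hb]
  simpa using Mem2.mul h (one_mem _) (D.c_mem hb _)

/-- Double cosets in the parabolic subgroup on `J` are detected. -/
def Sep (J : Set S) : Prop :=
  ∀ φ T U g, g ∈ pa M J → D.Hyp T U φ g → Mem2 (pa M (T ∩ J)) (pa M (U ∩ J)) g

/-- The same, in the presence of a commuting factor. -/
def SepP (J : Set S) : Prop :=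
  ∀ φ T U g g', g ∈ pa M J → g' ∈ pa M (cent M J) → D.Hyp T U φ (g * g') →
    Mem2 (pa M (T ∩ J)) (pa M (U ∩ J)) g

/-- The property of the basic cocycles at the base point. -/
def Base (J : Set S) : Prop :=
  ∀ T U g g', g ∈ pa M J → g' ∈ pa M (cent M J) → D.Hyp T U 1 (g * g') →
    (∃ a ∈ pa M (T ∩ J), ∃ b ∈ pa M (U ∩ J), θ g = θ (a * b)) ∧
      (θ g = 1 → Mem2 (pa M (T ∩ J)) (pa M (U ∩ J)) g)

/-- The product of two cocycles. -/
def prod (D1 D2 : Coc θ) : Coc θ where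
  Λ := D1.Λ ⊕ D2.Λ
  fin := by have := D1.fin; have := D2.fin; infer_instance
  Γ := joinG D1.Γ D2.Γ
  c φ g := in1 (D1.c φ g) * in2 (D2.c φ g)
  c_mul φ g h := by
    rw [D1.c_mul, D2.c_mul, map_mul, map_mul]
    exact (in_comm _ _).mul_mul_mul_comm _ _
  V T φ := {x | Sum.elim (· ∈ D1.V T φ) (· ∈ D2.V T φ) x}
  V_gen T φ s h := by rw [D1.V_gen T φ s h, D2.V_gen T φ s h]
  V_mem T φ s hs := mul_mem (gpMap_mem Sum.inl _ (fun _ h => by exact h) (D1.V_mem T φ s hs))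
    (gpMap_mem Sum.inr _ (fun _ h => by exact h) (D2.V_mem T φ s hs))

lemma prod_left {D1 D2 : Coc θ} {T U φ g} (h : (D1.prod D2).Hyp T U φ g) : D1.Hyp T U φ g := by
  have key : ∀ T φ, ∀ x ∈ PX (joinG D1.Γ D2.Γ) Zm ((D1.prod D2).V T φ), pr1 x ∈ D1.P T φ :=
    fun T φ x hx => map_mem_of_PX pr1 (by
      rintro (v | v) hv k
      · simpa [pr1] using gv_mem (Γ := D1.Γ) (X := D1.V T φ) (v := v) hv k
      · simp [pr1]) hx
  have := Mem2.map (G := GP (joinG D1.Γ D2.Γ) Zm) pr1 (key T _) (key U _)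
    (g := in1 (D1.c φ g) * in2 (D2.c φ g)) h
  rwa [pr1_in] at this

lemma prod_right {D1 D2 : Coc θ} {T U φ g} (h : (D1.prod D2).Hyp T U φ g) : D2.Hyp T U φ g := by
  have key : ∀ T φ, ∀ x ∈ PX (joinG D1.Γ D2.Γ) Zm ((D1.prod D2).V T φ), pr2 x ∈ D2.P T φ :=
    fun T φ x hx => map_mem_of_PX pr2 (by
      rintro (v | v) hv k
      · simp [pr2]
      · simpa [pr2] using gv_mem (Γ := D2.Γ) (X := D2.V T φ) (v := v) hv k) hx
  have := Mem2.map (G := GP (joinG D1.Γ D2.Γ) Zm) pr2 (key T _) (key U _)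
    (g := in1 (D1.c φ g) * in2 (D2.c φ g)) h
  rwa [pr2_in] at this

/-- Translation of the base point. -/
def shift (ψ : Φ) : Coc θ where
  Λ := D.Λ
  fin := D.fin
  Γ := D.Γ
  c φ g := D.c (ψ⁻¹ * φ) g
  c_mul φ g h := by rw [D.c_mul, mul_assoc]
  V T φ := D.V T (ψ⁻¹ * φ)
  V_gen T φ s h := by rw [← mul_assoc, D.V_gen T _ s h]
  V_mem T φ s hs := D.V_mem T _ s hs

lemma shift_hyp {T U φ g} (h : (D.shift φ).Hyp T U φ g) : D.Hyp T U 1 g := by
  have h3 : Mem2 (D.P T (φ⁻¹ * φ)) (D.P U (φ⁻¹ * (φ * θ g))) (D.c (φ⁻¹ * φ) g) := h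
  rwa [← mul_assoc, inv_mul_cancel] at h3

lemma exists_all [Finite Φ] : ∃ D' : Coc θ, ∀ φ T U g, D'.Hyp T U φ g → D.Hyp T U 1 g := by
  classical
  have := Fintype.ofFinite Φ
  have key : ∀ F : Finset Φ, ∃ D' : Coc θ, ∀ φ ∈ F, ∀ T U g, D'.Hyp T U φ g → D.Hyp T U 1 g := by
    intro F
    induction F using Finset.induction_on with
    | empty => exact ⟨D, by simp⟩
    | insert a F _ ih =>
      obtain ⟨D2, h2⟩ := ih
      refine ⟨(D.shift a).prod D2, fun φ hφ T U g hc => ?_⟩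
      rcases Finset.mem_insert.mp hφ with rfl | hφ
      · exact D.shift_hyp (prod_left hc)
      · exact h2 φ hφ T U g (prod_right hc)
  obtain ⟨D', hD⟩ := key Finset.univ
  exact ⟨D', fun φ => hD φ (Finset.mem_univ _)⟩

variable {D} in
lemma Base.sepP [Finite Φ] {J : Set S} (h : D.Base J) : ∃ D' : Coc θ, D'.SepP J := by
  obtain ⟨D', hD⟩ := D.exists_all
  refine ⟨D', fun φ T U g g' hg hg' hc => ?_⟩
  obtain ⟨a, ha, b, hb, e⟩ := (h T U g g' hg hg' (hD _ _ _ _ hc)).1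
  have ha' := pa_mono Set.inter_subset_right ha
  have hb' := pa_mono Set.inter_subset_right hb
  have h1 := (hc.left (pa_mono Set.inter_subset_left ha)).right
    (inv_mem (pa_mono Set.inter_subset_left hb))
  have e1 : a⁻¹ * (g * g') * b⁻¹ = a⁻¹ * g * b⁻¹ * g' := by
    simp only [mul_assoc, (comm_cent (inv_mem hb') hg').eq]
  rw [e1] at h1
  have h2 := (h T U _ g' (mul_mem (mul_mem (inv_mem ha') hg) (inv_mem hb')) hg'
    (hD _ _ _ _ h1)).2 (by simp [e])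
  simpa [mul_assoc] using h2.mul ha hb

end Coc

lemma mem2_union {J1 J2 : Set S} (hc : ∀ {x y}, x ∈ pa M J1 → y ∈ pa M J2 → Commute x y) {g}
    (hg : g ∈ pa M (J1 ∪ J2)) : Mem2 (pa M J1) (pa M J2) g := by
  induction hg using Subgroup.closure_induction with
  | mem x hx =>
    obtain ⟨s, hs | hs, rfl⟩ := hx
    · exact ⟨_, pa_mem hs, 1, one_mem _, by simp⟩
    · exact ⟨1, one_mem _, _, pa_mem hs, by simp⟩
  | one => exact ⟨1, one_mem _, 1, one_mem _, by simp⟩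
  | mul x y _ _ hx hy =>
    obtain ⟨a, ha, b, hb, rfl⟩ := hx
    obtain ⟨a', ha', b', hb', rfl⟩ := hy
    exact ⟨_, mul_mem ha ha', _, mul_mem hb hb', (hc ha' hb).symm.mul_mul_mul_comm _ _⟩
  | inv x _ hx =>
    obtain ⟨a, ha, b, hb, rfl⟩ := hx
    exact ⟨_, inv_mem ha, _, inv_mem hb, by rw [(hc ha hb).eq, mul_inv_rev]⟩

lemma sepP_join {J1 J2 : Set S} (h : J2 ⊆ cent M J1) (h1 : ∃ D : Coc θ, D.SepP J1)
    (h2 : ∃ D : Coc θ, D.SepP J2) : ∃ D : Coc θ, D.SepP (J1 ∪ J2) := by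
  obtain ⟨D1, h1⟩ := h1
  obtain ⟨D2, h2⟩ := h2
  have h' : J1 ⊆ cent M J2 := fun s hs =>
    ⟨fun h3 => (h h3).1 hs, fun t ht => M.symmetric s t ▸ (h ht).2 s hs⟩
  have c1 : cent M (J1 ∪ J2) ⊆ cent M J1 := fun t ht =>
    ⟨fun h3 => ht.1 (Or.inl h3), fun s hs => ht.2 s (Or.inl hs)⟩
  have c2 : cent M (J1 ∪ J2) ⊆ cent M J2 := fun t ht =>
    ⟨fun h3 => ht.1 (Or.inr h3), fun s hs => ht.2 s (Or.inr hs)⟩
  have hc : ∀ {x y}, x ∈ pa M J1 → y ∈ pa M J2 → Commute x y := fun hx hy =>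
    comm_cent hx (pa_mono h hy)
  refine ⟨D1.prod D2, fun φ T U g g' hg hg' hm => ?_⟩
  obtain ⟨x, hx, y, hy, rfl⟩ := mem2_union hc hg
  obtain ⟨a, ha, b, hb, rfl⟩ := h1 φ T U x (y * g') hx (mul_mem (pa_mono h hy) (pa_mono c1 hg'))
    (by rw [← mul_assoc]; exact Coc.prod_left hm)
  obtain ⟨a', ha', b', hb', rfl⟩ := h2 φ T U y (a * b * g') hy
    (mul_mem (pa_mono h' hx) (pa_mono c2 hg'))
    (by rw [← mul_assoc, ← (hc hx hy).eq]; exact Coc.prod_right hm)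
  have m1 : ∀ X : Set S, pa M (X ∩ J1) ≤ pa M (X ∩ (J1 ∪ J2)) := fun X =>
    pa_mono (Set.inter_subset_inter_right _ Set.subset_union_left)
  have m2 : ∀ X : Set S, pa M (X ∩ J2) ≤ pa M (X ∩ (J1 ∪ J2)) := fun X =>
    pa_mono (Set.inter_subset_inter_right _ Set.subset_union_right)
  exact ⟨a * a', mul_mem (m1 _ ha) (m2 _ ha'), b * b', mul_mem (m1 _ hb) (m2 _ hb'),
    (hc (pa_mono Set.inter_subset_right hb)
      (pa_mono Set.inter_subset_right ha')).mul_mul_mul_comm _ _⟩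

end Pool.Agent.Lib.MP_19b52f_al.EA2
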