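import Pool.Agent.Lib.MP_19b52f_al.EA2.Word

/-! Rank two root systems over a field with enough roots of unity. -/

namespace Pool.Agent.Lib.MP_19b52f_al.EA2

variable {F V : Type} [Field F] [AddCommGroup V] [Module F V]

/-- Quantum integers. -/
def qi (z : F) (k : ℤ) : F := (z ^ k - z ^ (-k)) / (z - z⁻¹)

/-- The roots of a rank two system, in cyclic order. -/
def bb (z : F) (x y : V) (k : ℤ) : V := qi z k • x + qi z (k - 1) • y

@[simp] lemma qi_zero (z : F) : qi z 0 = 0 := by simp [qi]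

lemma qi_neg (z : F) (k : ℤ) : qi z (-k) = -qi z k := by simp only [qi, neg_neg]; ring

/-- A primitive root of unity of order `2 m`, with `m` at least two. -/
structure Root (z : F) (m : ℤ) : Prop where
  two : 2 ≤ m
  ne : z ≠ 0
  dvd : ∀ k : ℤ, z ^ k = 1 ↔ 2 * m ∣ k

lemma root_of_prim {z : F} {m : ℕ} (hm : 2 ≤ m) (h : IsPrimitiveRoot z (2 * m)) : Root z m :=
  ⟨by exact_mod_cast hm, h.ne_zero (by omega), fun k => by simpa using h.zpow_eq_one_iff_dvd k⟩

lemma not_dvd {m k : ℤ} (h0 : k ≠ 0) (h1 : -m < k) (h2 : k < m) : ¬ m ∣ k := fun h => by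
  have := Int.le_of_dvd (abs_pos.mpr h0) ((dvd_abs _ _).mpr h)
  have := abs_lt.mpr ⟨h1, h2⟩
  omega

namespace Root
variable {z : F} {m : ℤ} (h : Root z m)
include h

lemma qi_eq_zero {k : ℤ} : z ^ k - z ^ (-k) = 0 ↔ m ∣ k := by
  rw [sub_eq_zero, zpow_neg, ← mul_eq_one_iff_eq_inv₀ (zpow_ne_zero _ h.ne), ← zpow_add₀ h.ne,
    h.dvd, ← two_mul, mul_dvd_mul_iff_left two_ne_zero]

lemma den : z - z⁻¹ ≠ 0 := fun e => by
  have := h.two
  exact not_dvd one_ne_zero (by omega) (by omega) (h.qi_eq_zero.mp (by simpa using e))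

lemma qi_zero_iff {k : ℤ} : qi z k = 0 ↔ m ∣ k := by
  rw [qi, div_eq_zero_iff, h.qi_eq_zero]
  simp [h.den]

lemma pow_m : z ^ m = -1 := by
  have h1 : z ^ m * z ^ m = 1 := by rw [← zpow_add₀ h.ne, h.dvd, two_mul]
  have := h.two
  refine (mul_self_eq_one_iff.mp h1).resolve_left (fun e => ?_)
  exact not_dvd (by omega) (by omega) (by omega) ((h.dvd _).mp e)

lemma qi_one : qi z 1 = 1 := by simpa [qi] using div_self h.den

lemma qi_add_m (k : ℤ) : qi z (k + m) = -qi z k := by
  rw [qi, qi, neg_add, zpow_add₀ h.ne, zpow_add₀ h.ne, zpow_neg z m, h.pow_m]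
  simp only [inv_neg, inv_one]
  ring

lemma qi_congr {k l : ℤ} (e : 2 * m ∣ k - l) : qi z k = qi z l := by
  have : z ^ k = z ^ l := by
    rw [← sub_add_cancel k l, zpow_add₀ h.ne, (h.dvd _).mpr e, one_mul]
  rw [qi, qi, zpow_neg, zpow_neg, this]

lemma qi_three (a b k : ℤ) :
    qi z (b - a) * qi z k = qi z (b - k) * qi z a + qi z (k - a) * qi z b := by
  have h1 := zpow_ne_zero a h.ne
  have h2 := zpow_ne_zero b h.ne
  have h3 := zpow_ne_zero k h.ne
  simp only [qi, neg_sub, zpow_sub₀ h.ne, zpow_neg]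
  generalize z - z⁻¹ = D
  field_simp
  ring

lemma qi_two : qi z 2 = z + z⁻¹ := by
  rw [qi, div_eq_iff h.den, zpow_neg, zpow_ofNat]
  ring

variable (x y : V)

lemma bb_three (a b k : ℤ) : qi z (b - a) • bb z x y k =
    qi z (b - k) • bb z x y a + qi z (k - a) • bb z x y b := by
  have h1 := h.qi_three a b k
  have h2 := h.qi_three (a - 1) (b - 1) (k - 1)
  simp only [sub_sub_sub_cancel_right] at h2
  simp only [bb, smul_add, smul_smul, h1, h2, add_smul]
  abel

lemma bb_add_m (k : ℤ) : bb z x y (k + m) = -bb z x y k := by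
  rw [bb, bb, add_sub_right_comm, h.qi_add_m, h.qi_add_m]
  module

lemma bb_congr {k l : ℤ} (e : 2 * m ∣ k - l) : bb z x y k = bb z x y l := by
  rw [bb, bb, h.qi_congr e, h.qi_congr (k := k - 1) (l := l - 1) (by simpa using e)]

lemma bb_one : bb z x y 1 = x := by simp [bb, h.qi_one]

lemma bb_zero : bb z x y 0 = -y := by simp [bb, qi_neg, h.qi_one]

lemma bb_swap (k : ℤ) : bb z y x k = bb z x y (m + 1 - k) := by
  rw [bb, bb, show m + 1 - k = -(k - 1) + m by ring, show -(k - 1) + m - 1 = -k + m by ring,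
    h.qi_add_m, h.qi_add_m, qi_neg, qi_neg, neg_neg, neg_neg, add_comm]

lemma bb_adj (j k : ℤ) : bb z x y k = qi z (j + 1 - k) • bb z x y j + qi z (k - j) • bb z x y (j + 1) := by
  rw [← h.bb_three, add_sub_cancel_left, h.qi_one, one_smul]

lemma bb_rec (j : ℤ) : bb z x y (j + 2) = (z + z⁻¹) • bb z x y (j + 1) - bb z x y j := by
  rw [h.bb_adj x y j, add_sub_cancel_left, show j + 1 - (j + 2) = -1 by ring, qi_neg, h.qi_one,
    h.qi_two]
  module

lemma cos_eq {i j : ℤ} (e : z ^ i + z ^ (-i) = z ^ j + z ^ (-j)) :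
    2 * m ∣ i - j ∨ 2 * m ∣ i + j := by
  have h1 := zpow_ne_zero i h.ne
  have h2 := zpow_ne_zero j h.ne
  rw [← h.dvd, ← h.dvd, zpow_sub₀ h.ne, zpow_add₀ h.ne, div_eq_one_iff_eq h2]
  rw [zpow_neg, zpow_neg] at e
  have h3 : (z ^ i - z ^ j) * (z ^ i * z ^ j - 1) = 0 := by
    field_simp at e
    linear_combination e
  simpa [sub_eq_zero] using h3

end Root

variable (B : V →ₗ[F] V →ₗ[F] F)

/-- The map is the reflection in the vector. -/
def IsRefl (x : V) (f : V ≃ₗ[F] V) : Prop := ∀ v, f v = v - B x v • x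

/-- Two roots at the angle given by `z`. -/
structure Pair (z : F) (m : ℤ) (x y : V) : Prop where
  root : Root z m
  symm : ∀ v w, B v w = B w v
  xx : B x x = 2
  yy : B y y = 2
  xy : B x y = -(z + z⁻¹)

variable {B}

lemma IsRefl.self {x : V} {f : V ≃ₗ[F] V} (h : IsRefl B x f) (hx : B x x = 2) : f x = -x := by
  rw [h, hx]; module

lemma IsRefl.sq {x : V} {f : V ≃ₗ[F] V} (h : IsRefl B x f) (hx : B x x = 2) : f * f = 1 := by
  ext v
  rw [LinearEquiv.mul_apply, h v, map_sub, map_smul, h.self hx, h v]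
  simp

namespace Pair
variable {z : F} {m : ℤ} {x y : V} (P : Pair B z m x y)
include P

lemma swap : Pair B z m y x := ⟨P.root, P.symm, P.yy, P.xx, by rw [P.symm, P.xy]⟩

lemma form (i j : ℤ) : B (bb z x y i) (bb z x y j) = z ^ (i - j) + z ^ (-(i - j)) := by
  have h0 := P.root.ne
  have h1 := zpow_ne_zero i h0
  have h2 := zpow_ne_zero j h0
  have h3 := P.root.den
  have h4 : z ^ 2 - 1 ≠ 0 := fun e => h3 (by field_simp; linear_combination e)
  simp only [bb, map_add, map_smul, LinearMap.add_apply, LinearMap.smul_apply, smul_eq_mul, P.xx,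
    P.yy, P.xy, P.swap.xy, qi, neg_sub, zpow_sub₀ h0, zpow_neg, zpow_one]
  field_simp
  ring

lemma dvd_of_eq {i j : ℤ} (e : bb z x y i = bb z x y j) : 2 * m ∣ i - j := by
  have h1 := P.form i j
  rw [e, P.form, sub_self] at h1
  simpa using P.root.cos_eq h1.symm

lemma dvd_of_pm {i j : ℤ} (e : bb z x y i = bb z x y j ∨ bb z x y i = -bb z x y j) :
    m ∣ i - j := by
  rcases e with e | e
  · exact (Dvd.intro_left _ rfl).trans (P.dvd_of_eq e)
  · rw [← P.root.bb_add_m] at e
    have := (Dvd.intro_left _ rfl).trans (P.dvd_of_eq e)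
    rwa [← sub_sub, dvd_sub_left dvd_rfl] at this

variable {f g : V ≃ₗ[F] V} (hf : IsRefl B x f) (hg : IsRefl B y g)
include hf hg

lemma step (j : ℤ) : lt f g j (lt x y j) = -lt x y j ∧
    lt f g j (lt x y (j + 1)) = lt x y (j + 1) + (z + z⁻¹) • lt x y j ∧ lt f g j * lt f g j = 1 := by
  rw [lt_succ, lt, lt, lt]
  split_ifs
  · exact ⟨hg.self P.yy, by rw [hg, P.swap.xy]; module, hg.sq P.yy⟩
  · exact ⟨hf.self P.xx, by rw [hf, P.xy]; module, hf.sq P.xx⟩

lemma W_root (j : ℤ) :
    W f g j (lt x y (j + 1)) = bb z x y (j + 1) ∧ W f g j (lt x y j) = -bb z x y j := by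
  induction j using Int.induction_on with
  | zero => simp [P.root.bb_one, P.root.bb_zero]
  | succ i ih =>
    obtain ⟨h1, h2, -⟩ := P.step hf hg (i + 1)
    rw [W_succ, LinearEquiv.mul_apply, LinearEquiv.mul_apply, h1, h2, map_add, map_smul, map_neg,
      add_assoc, one_add_one_eq_two, lt_add_two, ih.1, ih.2, P.root.bb_rec]
    exact ⟨by module, rfl⟩
  | pred i ih =>
    obtain ⟨h1, h2, h3⟩ := P.step hf hg (-i)
    have e : W f g (-i - 1) = W f g (-i) * lt f g (-i) := by
      have := W_succ f g (-i - 1)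
      rw [sub_add_cancel] at this
      rw [this, mul_assoc, h3, mul_one]
    have e2 := P.root.bb_rec x y (-i - 1)
    rw [e, sub_add_cancel, ← lt_add_two x y (-i - 1), LinearEquiv.mul_apply, LinearEquiv.mul_apply,
      h1, show -(i : ℤ) - 1 + 2 = -i + 1 by ring, h2, map_add, map_smul, map_neg, ih.1, ih.2,
      show -(i : ℤ) + 1 = -i - 1 + 2 by ring, e2, sub_add_cancel]
    exact ⟨neg_neg _, by module⟩

lemma braid : W f g m = W g f m := by
  have h0 := P.root.ne
  have h3 := P.root.den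
  have h4 : z ^ 2 - 1 ≠ 0 := fun e => h3 (by field_simp; linear_combination e)
  have h1 := P.W_root hf hg m
  have h2 := P.swap.W_root hg hf m
  have e1 := P.root.bb_add_m x y 1
  have e2 := P.root.bb_add_m x y 0
  have e3 := P.root.bb_add_m y x 1
  have e4 := P.root.bb_add_m y x 0
  rw [add_comm, P.root.bb_one] at e1 e3
  rw [zero_add, P.root.bb_zero, neg_neg] at e2 e4
  rw [e1, e2, lt_succ] at h1
  rw [e3, e4, lt_succ] at h2
  have hx : W f g m x = W g f m x ∧ W f g m y = W g f m y := by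
    by_cases h : Even m <;> simp only [lt, h, if_true, if_false] at h1 h2 <;>
      simp [h1.1, h1.2, h2.1, h2.2]
  ext v
  let a := -(2 * B x v + (z + z⁻¹) * B y v) / (z - z⁻¹) ^ 2
  let b := -(2 * B y v + (z + z⁻¹) * B x v) / (z - z⁻¹) ^ 2
  let Sb := MulAction.stabilizer (V ≃ₗ[F] V) (v - a • x - b • y)
  have hfS : f ∈ Sb := by
    have : B x (v - a • x - b • y) = 0 := by
      simp only [map_sub, map_smul, smul_eq_mul, P.xx, P.xy, a, b]
      field_simp
      ring
    change f _ = _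
    rw [hf, this, zero_smul, sub_zero]
  have hgS : g ∈ Sb := by
    have : B y (v - a • x - b • y) = 0 := by
      simp only [map_sub, map_smul, smul_eq_mul, P.yy, P.swap.xy, a, b]
      field_simp
      ring
    change g _ = _
    rw [hg, this, zero_smul, sub_zero]
  have k1 : W f g m (v - a • x - b • y) = v - a • x - b • y := W_mem f g m hfS hgS
  have k2 : W g f m (v - a • x - b • y) = v - a • x - b • y := W_mem g f m hgS hfS
  simpa [hx.1, hx.2] using k1.trans k2.symm

end Pair

/-- An isometry that matches two roots of a system with two roots matches all of them. -/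
lemma Pair.rigid {z : F} {m : ℤ} {x y : V} (P : Pair B z m x y) (ψ : V ≃ₗ[F] V)
    (hψ : ∀ v w, B (ψ v) (ψ w) = B v w) {i j a b : ℤ} (hij : ¬ m ∣ j - i)
    (ha : ψ (bb z x y i) = bb z x y a) (hb : ψ (bb z x y j) = bb z x y b) :
    (∀ k, ψ (bb z x y k) = bb z x y (k + (a - i))) ∨ ∀ k, ψ (bb z x y k) = bb z x y (a + i - k) := by
  have h0 : qi z (j - i) ≠ 0 := fun e => hij (P.root.qi_zero_iff.mp e)
  have h1 := hψ (bb z x y j) (bb z x y i)
  rw [ha, hb, P.form, P.form] at h1
  have h2 := fun k => congrArg ψ (P.root.bb_three x y i j k)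
  simp only [map_add, map_smul, ha, hb] at h2
  rcases P.root.cos_eq h1 with h | h
  · refine Or.inl fun k => smul_right_injective V h0 ?_
    have h3 := P.root.bb_three x y a b (k + (a - i))
    rw [P.root.qi_congr h, P.root.qi_congr (k := b - (k + (a - i))) (l := j - k)
      (by convert h using 1; ring), show k + (a - i) - a = k - i by ring] at h3
    simp only [h2, h3]
  · refine Or.inr fun k => smul_right_injective V h0 ?_
    have h3 := P.root.bb_three x y a b (a + i - k)
    rw [P.root.qi_congr (k := b - a) (l := -(j - i)) (by convert h using 1; ring),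
      P.root.qi_congr (k := b - (a + i - k)) (l := -(j - k)) (by convert h using 1; ring),
      show a + i - k - a = -(k - i) by ring, qi_neg, qi_neg, qi_neg] at h3
    simp only [h2]
    linear_combination (norm := module) h3

end Pool.Agent.Lib.MP_19b52f_al.EA2
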