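import Pool.Agent.Lib.MP_19b52f_al.EA2.Geo

/-! The labels of the walls of a dihedral group, and walks on the chambers. -/

namespace Pool.Agent.Lib.MP_19b52f_al.EA2

open Pool.Agent.Lib.MP_19b52f_al.EA

section pal
variable {R : Type} [Group R]

/-- The product in decreasing order. -/
def rp (f : ℕ → R) : ℕ → R
  | 0 => 1
  | n + 1 => f n * rp f n

lemma pp_succ' (f : ℕ → R) (n : ℕ) : pp f (n + 1) = f 0 * pp (fun j => f (j + 1)) n := by
  induction n with
  | zero => simp [pp]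
  | succ n ih => rw [pp, ih, pp, mul_assoc]

lemma pp_rev (E : ℤ → R) (n : ℕ) :
    pp (fun j : ℕ => E (n - j)) n = rp (fun j : ℕ => E (j + 1)) n := by
  induction n with
  | zero => rfl
  | succ n ih => rw [pp_succ', rp, ← ih]; simp

/-- The product over a window does not change when the order is reversed. -/
def Pal (E : ℤ → R) (n : ℕ) : Prop :=
  pp (fun j : ℕ => E (j + 1)) n = pp (fun j : ℕ => E (n - j)) n

lemma Pal.rev {E : ℤ → R} {n : ℕ} (h : Pal E n) : Pal (fun k => E (n + 1 - k)) n := by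
  have e : ∀ j : ℕ, (n : ℤ) + 1 - (n - j) = j + 1 := fun j => by ring
  simp only [Pal, add_sub_add_right_eq_sub, e]
  exact h.symm

lemma pal_of_comm {E : ℤ → R} {n : ℕ}
    (h : ∀ i j : ℕ, i < j → j < n → Commute (E (i + 1)) (E (j + 1))) : Pal E n := by
  rw [Pal, pp_rev]
  induction n with
  | zero => rfl
  | succ n ih =>
    rw [pp, rp, ← ih (fun i j h1 h2 => h i j h1 (by omega))]
    exact (pp_mem (Subgroup.centralizer {E (n + 1)}) _ _ (fun i hi => by
      rintro _ rfl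
      exact (h i n hi (by omega)).symm.eq) _ rfl).symm

lemma pal_of_tel {g e : ℤ → R} {n : ℕ} (he : ∀ k x, Commute (e k) x)
    (h1 : ∀ k, Commute (g k) (g (k + 1))) (h2 : Commute (g 0) (g n)) :
    Pal (fun k => (g (k - 1))⁻¹ * g k * e k) n := by
  rw [Pal, pp_rev (fun k => (g (k - 1))⁻¹ * g k * e k)]
  have key : ∀ j : ℕ, ∃ w, (∀ x, Commute w x) ∧
      pp (fun j : ℕ => (g (j + 1 - 1))⁻¹ * g (j + 1) * e (j + 1)) j = (g 0)⁻¹ * g j * w ∧
      rp (fun j : ℕ => (g (j + 1 - 1))⁻¹ * g (j + 1) * e (j + 1)) j = g j * (g 0)⁻¹ * w := by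
    intro j
    induction j with
    | zero => exact ⟨1, by simp, by simp [pp], by simp [rp]⟩
    | succ j ih =>
      obtain ⟨w, h3, h4, h5⟩ := ih
      refine ⟨e (j + 1) * w, fun x => (he _ x).mul_left (h3 x), ?_, ?_⟩
      · rw [pp, h4, add_sub_cancel_right, mul_assoc, (h3 _).eq]
        push_cast
        group
      · rw [rp, h5, add_sub_cancel_right, (h1 j).inv_left.eq, mul_assoc, ← mul_assoc (e _),
          (he _ _).eq]
        push_cast
        group
  obtain ⟨w, -, h4, h5⟩ := key n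
  rw [h4, h5, h2.inv_left.eq]

end pal

variable (n : ℕ)

/-- Free vertices on the left, central vertices on the right. -/
def eG : SimpleGraph (ZMod n ⊕ ZMod n) where
  Adj x y := x ≠ y ∧ (x.isRight ∨ y.isRight)
  symm := ⟨fun _ _ h => ⟨h.1.symm, h.2.symm⟩⟩
  loopless := ⟨fun _ h => h.1 rfl⟩

/-- The central generators. -/
def ee (k : ℤ) : GP (eG n) Zm := gv _ (Sum.inr (k : ZMod n)) tau

open Classical in
/-- The potential. -/
noncomputable def gg (k : ℤ) : GP (eG n) Zm :=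
  if On n k then gv _ (Sum.inl (k : ZMod n)) tau else 1

/-- The labels. -/
noncomputable def lab (k : ℤ) : GP (eG n) Zm := (gg n (k - 1))⁻¹ * gg n k * ee n k

/-- The supports of the labels. -/
def supp (k : ℤ) : Set (ZMod n ⊕ ZMod n) :=
  {Sum.inl ((k - 1 : ℤ) : ZMod n), Sum.inl (k : ZMod n), Sum.inr (k : ZMod n)}

lemma ee_comm (k : ℤ) (x : GP (eG n) Zm) : Commute (ee n k) x := by
  refine PX_le (S := Subgroup.centralizer {ee n k}) (fun v _ a => ?_) (mem_PX_univ x) _ rfl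
  rintro _ rfl
  by_cases h : Sum.inr (k : ZMod n) = v
  · subst h
    exact ((Commute.all tau a).map _).eq
  · exact (gv_comm (Γ := eG n) ⟨h, Or.inl rfl⟩ _ _).eq

lemma gg_mem (k : ℤ) {X : Set (ZMod n ⊕ ZMod n)} (h : Sum.inl (k : ZMod n) ∈ X) :
    gg n k ∈ PX (eG n) Zm X := by
  rw [gg]
  split_ifs
  · exact gv_mem h _
  · exact one_mem _

lemma lab_mem (k : ℤ) : lab n k ∈ PX (eG n) Zm (supp n k) :=
  mul_mem (mul_mem (inv_mem (gg_mem n _ (by simp [supp]))) (gg_mem n _ (by simp [supp])))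
    (gv_mem (by simp [supp]) _)

lemma cast_eq_iff (k l : ℤ) : (k : ZMod n) = l ↔ (n : ℤ) ∣ k - l := by
  rw [eq_comm, ZMod.intCast_eq_intCast_iff_dvd_sub]

lemma prj_PX {Λ : Type} {Γ : SimpleGraph Λ} {X : Set Λ} {v : Λ} (h : v ∉ X) {g : GP Γ Zm}
    (hg : g ∈ PX Γ Zm X) : prj v g = 1 :=
  eq_of_PX (f' := 1) (fun w hw k => prj_gv_ne (fun e : w = v => h (e ▸ hw)) k) hg

lemma prj_lab (i k : ℤ) : (prj (Sum.inr (i : ZMod n)) (lab n k)).toAdd =
    if (n : ℤ) ∣ k - i then 1 else 0 := by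
  have h : ∀ l, prj (Sum.inr (i : ZMod n)) (gg n l) = 1 := fun l =>
    prj_PX (X := {Sum.inl (l : ZMod n)}) (by simp) (gg_mem n l rfl)
  rw [lab, map_mul (prj _), map_mul (prj _), map_inv, h, h, ee]
  split_ifs with h1
  · rw [(cast_eq_iff n k i).mpr h1, prj_gv]; simp
  · rw [prj_gv_ne (fun e => h1 ((cast_eq_iff n k i).mp (Sum.inr.inj e)))]; simp

variable {n} (hn : 0 < (n : ℤ))
include hn

lemma gg_congr {k l : ℤ} (h : 2 * (n : ℤ) ∣ k - l) : gg n k = gg n l := by
  obtain ⟨q, hq⟩ := h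
  have e : k = l + n * (2 * q) := by linarith
  have h1 : On n k ↔ On n l := by
    rw [On, On, e, Int.add_mul_ediv_left _ _ hn.ne', Int.add_mul_emod_self_left, add_right_comm,
      Int.odd_add (n := 2 * q)]
    simp
  rw [gg, gg, (cast_eq_iff n k l).mpr ⟨2 * q, by linarith⟩, propext h1]

lemma lab_congr {k l : ℤ} (h : 2 * (n : ℤ) ∣ k - l) : lab n k = lab n l := by
  rw [lab, lab, gg_congr hn h, gg_congr hn (k := k - 1) (l := l - 1) (by simpa using h), ee, ee,
    (cast_eq_iff n k l).mpr ((Dvd.intro_left _ rfl).trans h)]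

lemma gg_succ (k : ℤ) : gg n k = 1 ∨ gg n (k + 1) = 1 := by
  by_cases h : On n (k + 1)
  · exact Or.inl (if_neg (on_succ hn h))
  · exact Or.inr (if_neg h)

lemma gg_add (k : ℤ) : gg n k = 1 ∨ gg n (k + n) = 1 := by
  by_cases h : On n (k + n)
  · exact Or.inl (if_neg ((on_add hn k).mp h).1)
  · exact Or.inr (if_neg h)

omit hn in
lemma comm_of_or {R : Type} [Group R] {x y : R} (h : x = 1 ∨ y = 1) : Commute x y := by
  rcases h with rfl | rfl <;> simp

lemma lab_pal (d : ℤ) : Pal (fun k => lab n (k + d)) n := by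
  have := pal_of_tel (g := fun k => gg n (k + d)) (e := fun k => ee n (k + d)) (n := n)
    (fun _ _ => ee_comm n _ _) (fun k => by rw [add_right_comm]; exact comm_of_or (gg_succ hn _))
    (by rw [zero_add, add_comm]; exact comm_of_or (gg_add hn _))
  simpa only [lab, add_sub_right_comm] using this

lemma lab_pal' (d : ℤ) : Pal (fun k => lab n (d - k)) n := by
  convert (lab_pal hn (d - n - 1)).rev using 3
  ring

variable {G : Type} [Group G] {a b : G}

omit hn in
variable (n a b) in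
/-- The decoding homomorphism. -/
def kp : GP (eG n) Zm →* G :=
  gpLift (Sum.elim (fun r => zpowersHom _ (Gp a b n r.cast)) (fun _ => 1)) (by
    rintro (x | x) (y | y) ⟨-, h⟩ k k'
    · simp at h
    all_goals simp)

omit hn in
lemma kp_inr (x : ZMod n) (k : Zm) : kp n a b (gv _ (Sum.inr x) k) = 1 := by simp [kp]

variable (h : W a b n = W b a n)
include h

lemma Gp_congr {k l : ℤ} (e : (n : ℤ) ∣ k - l) : Gp a b n k = Gp a b n l := by
  obtain ⟨q, hq⟩ := e
  rw [show k = l + n * q by linarith, Gp_add_mul h hn]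

lemma kp_inl (j : ℤ) (k : Zm) :
    kp n a b (gv _ (Sum.inl (j : ZMod n)) k) = Gp a b n j ^ k.toAdd := by
  rw [Gp_congr hn h ((cast_eq_iff n j (j : ZMod n).cast).mp (by simp))]
  simp [kp]

lemma kp_gg (j : ℤ) : kp n a b (gg n j) * kp n a b (gg n (j + n)) = Gp a b n j := by
  by_cases h1 : On n j
  · rw [gg, gg, if_pos h1, if_neg (fun h2 => ((on_add hn j).mp h2).1 h1), kp_inl hn h]
    simp
  · by_cases h2 : (n : ℤ) ∣ j
    · rw [gg, gg, if_neg h1, if_neg (fun h3 => ((on_add hn j).mp h3).2 h2),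
        Gp_congr hn h (l := 0) (by simpa using h2)]
      simp
    · rw [gg, gg, if_neg h1, if_pos ((on_add hn j).mpr ⟨h1, h2⟩), kp_inl hn h, Gp_add h hn]
      simp

omit hn in
lemma W_add_mul (j q : ℤ) : W a b (j + 2 * n * q) = W a b j * (W a b n * W a b n) ^ q := by
  have h1 : ∀ j, W a b (j + 2 * n) = W a b j * (W a b n * W a b n) := fun j => by
    rw [two_mul, ← add_assoc, W_add _ h, W_add _ h, mul_assoc]
  induction q using Int.induction_on with
  | zero => simp
  | succ i ih => rw [mul_add, mul_one, ← add_assoc, h1, ih, zpow_add_one, mul_assoc]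
  | pred i ih =>
    rw [zpow_sub_one, ← mul_assoc, ← ih, eq_mul_inv_iff_mul_eq, ← h1]
    congr 1
    ring

lemma walk {Φ : Type} [Group Φ] (θ : G →* Φ) (ha : θ a * θ a = 1) (hb : θ b * θ b = 1)
    (c : Φ → G → GP (eG n) Zm) (hc : ∀ φ g g', c φ (g * g') = c φ g * c (φ * θ g) g')
    (h1 : ∀ j, c (θ (W a b j)) (lt a b (j + 1)) = lab n (j + 1))
    (h2 : ∀ j, c (θ (W a b j)) (lt a b j) = lab n (j + n)) {g : G}
    (hg : g ∈ Subgroup.closure {a, b}) : ∃ (j : ℤ) (u : ℤ → ℤ), -n < j ∧ j ≤ n ∧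
      θ g = θ (W a b j) ∧ (∀ i : ℤ, (prj (Sum.inr (i : ZMod n)) (c 1 g)).toAdd = 2 * u i + Nw n i j) ∧
      g = (W a b n * W a b n) ^ u 2 * kp n a b (c 1 g) * (kp n a b (gg n j))⁻¹ * W a b j := by
  let Inv : G → ℤ → (ℤ → ℤ) → Prop := fun g j u => θ g = θ (W a b j) ∧
    (∀ i : ℤ, (prj (Sum.inr (i : ZMod n)) (c 1 g)).toAdd = 2 * u i + Nw n i j) ∧
    g = (W a b n * W a b n) ^ u 2 * kp n a b (c 1 g) * (kp n a b (gg n j))⁻¹ * W a b j
  have hz : ∀ y (q : ℤ), Commute ((W a b n * W a b n) ^ q) (kp n a b y) := fun y q => by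
    refine (zed_mem h (map_mem_of_PX _ ?_ (mem_PX_univ y))).zpow_left q
    rintro (x | x) - k
    · simpa [kp] using zpow_mem (Gp_mem _) _
    · simp [kp_inr]
  have hsq : ∀ j, θ (lt a b j) * θ (lt a b j) = 1 := fun j => by
    rw [lt]; split_ifs; exacts [hb, ha]
  have hlab : ∀ j, kp n a b (lab n (j + 1)) = (kp n a b (gg n j))⁻¹ * kp n a b (gg n (j + 1)) :=
    fun j => by simp [lab, ee, kp_inr]
  have fwd : ∀ g j u, Inv g j u ↔ Inv (g * lt a b (j + 1)) (j + 1) u := by
    intro g j u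
    have e0 : θ (g * lt a b (j + 1)) = θ (W a b (j + 1)) ↔ θ g = θ (W a b j) := by
      rw [W_succ, map_mul, map_mul, mul_left_inj]
    refine and_congr e0.symm Iff.rfl |>.trans (and_congr_right fun e => ?_)
    rw [hc, one_mul, e0.mp e, h1]
    refine and_congr (forall_congr' fun i => ?_) ?_
    · rw [map_mul, toAdd_mul, prj_lab, Nw_succ hn, ← add_assoc, add_left_inj]
    · rw [map_mul, hlab, W_succ, ← mul_assoc, mul_left_inj]
      simp only [mul_assoc, mul_inv_cancel_left]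
  have bwd : ∀ g j u, Inv g (j + 1) u ↔
      Inv (g * lt a b (j + 1)) j (fun i => u i + (Nw n i (j + 1) - Nw n i j)) := by
    intro g j u
    have e0 : θ (g * lt a b (j + 1)) = θ (W a b j) ↔ θ g = θ (W a b (j + 1)) := by
      rw [W_succ, map_mul, map_mul, ← mul_left_inj (θ (lt a b (j + 1))), mul_assoc, hsq, mul_one]
    refine and_congr e0.symm Iff.rfl |>.trans (and_congr_right fun e => ?_)
    rw [hc, one_mul, e0.mp e, h2]
    refine and_congr (forall_congr' fun i => ?_) ?_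
    · rw [map_mul, toAdd_mul, prj_lab, Nw_succ hn, add_sub_right_comm (j + 1)]
      simp only [dvd_add_self_right, Nw_succ hn]
      omega
    · have e1 : (kp n a b (gg n (j + 1)))⁻¹ * W a b (j + 1) * lt a b (j + 1) =
          kp n a b (lab n (j + 1 + n)) * (W a b n * W a b n) ^ (Nw n 2 (j + 1) - Nw n 2 j) *
            (kp n a b (gg n j))⁻¹ * W a b j := by
        have e2 := ((comm_of_or (gg_succ hn (j + n))).map (kp n a b)).inv_left.eq
        rw [mul_assoc, Gp_succ (m := n), add_right_comm, hlab, e2, ← kp_gg hn h, ← kp_gg hn h,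
          add_right_comm j, mul_assoc _ (_⁻¹) (_ ^ _), ← (hz _ _).inv_right.eq]
        group
      rw [zpow_add, mul_assoc (_ ^ u 2) (_ ^ _), (hz (_ * _) _).eq, map_mul, ← mul_left_inj (lt a b (j + 1)),
        mul_assoc _ _ (W a b (j + 1)), mul_assoc _ _ (lt a b (j + 1)), e1]
      simp only [mul_assoc]
  have key : ∃ j u, Inv g j u := by
    induction hg using Subgroup.closure_induction_right with
    | one =>
      have : c 1 1 = 1 := by simpa using hc 1 1 1
      exact ⟨0, 0, by simp, by simp [this], by simp [this, gg, On]⟩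
    | mul_right x _ y hy ih =>
      obtain ⟨j, u, ih⟩ := ih
      have : y = lt a b (j + 1) ∨ y = lt a b j := by
        rcases lt_cases a b j with h | h <;> rcases hy with rfl | rfl <;> simp [h.1, h.2]
      rcases this with rfl | rfl
      · exact ⟨_, _, (fwd _ _ _).mp ih⟩
      · obtain ⟨j, rfl⟩ : ∃ i, j = i + 1 := ⟨j - 1, by ring⟩
        exact ⟨_, _, (bwd _ _ _).mp ih⟩
    | mul_inv_cancel x _ y hy ih =>
      obtain ⟨j, u, ih⟩ := ih
      have : y = lt a b (j + 1) ∨ y = lt a b j := by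
        rcases lt_cases a b j with h | h <;> rcases hy with rfl | rfl <;> simp [h.1, h.2]
      rcases this with rfl | rfl
      · exact ⟨_, fun i => u i - (Nw n i (j + 1) - Nw n i j), (bwd _ j _).mpr (by simpa using ih)⟩
      · obtain ⟨j, rfl⟩ : ∃ i, j = i + 1 := ⟨j - 1, by ring⟩
        exact ⟨_, _, (fwd _ j u).mpr (by simpa using ih)⟩
  obtain ⟨j, u, k1, k2, k3⟩ := key
  obtain ⟨j, q, l1, l2, rfl⟩ : ∃ i q : ℤ, -n < i ∧ i ≤ n ∧ j = i + 2 * n * q := by
    have e1 := Int.mul_ediv_add_emod (j + n - 1) (2 * n)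
    have e2 := Int.emod_nonneg (j + n - 1) (b := 2 * n) (by omega)
    have e3 := Int.emod_lt_of_pos (j + n - 1) (b := 2 * n) (by omega)
    exact ⟨(j + n - 1) % (2 * n) - n + 1, (j + n - 1) / (2 * n), by omega, by omega, by omega⟩
  have hθ : θ (W a b n * W a b n) = 1 := by
    have e1 := Wv_add 0 h
    rw [zero_add, Wv_zero, mul_one] at e1
    have e2 : θ b * θ a = (θ a * θ b)⁻¹ := by
      rw [mul_inv_rev, inv_eq_of_mul_eq_one_right ha, inv_eq_of_mul_eq_one_right hb]
    nth_rewrite 2 [← e1]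
    rw [W, Wv]
    split_ifs
    · simp [e2, -mul_inv_rev]
    · simp [e2, mul_assoc, ← mul_assoc (θ a) (θ a), ha, -mul_inv_rev]
  refine ⟨j, fun i => u i + q, l1, l2, ?_, fun i => ?_, ?_⟩
  · rw [k1, W_add_mul h, map_mul, map_zpow, hθ, one_zpow, mul_one]
  · rw [k2, show 2 * n * q = n * (2 * q) by ring, Nw_add hn]
    ring
  · rw [W_add_mul h, gg_congr hn (l := j) (by simp), ← ((zed_mem h (W_mem' j)).zpow_left q).eq,
      ← mul_assoc, mul_assoc _ (_⁻¹), ← (hz _ q).inv_right.eq, ← mul_assoc, mul_assoc _ (kp n a b _),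
      ← (hz _ q).eq] at k3
    rw [zpow_add]
    simpa only [mul_assoc] using k3

end Pool.Agent.Lib.MP_19b52f_al.EA2
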