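import Pool.Agent.Lib.MP_19b52f_al.EA2.Frame

/-! Alternating words with integer length and the dihedral Artin relation. -/

namespace Pool.Agent.Lib.MP_19b52f_al.EA2

open Pool.Agent.Lib.MP_19b52f_al.EA

/-- The letter on the edge between the chambers `j - 1` and `j`. -/
def lt {X : Type} (a b : X) (j : ℤ) : X := if Even j then b else a

section letters
variable {X Y : Type} (a b : X) (j : ℤ)

lemma lt_succ : lt a b (j + 1) = lt b a j := by
  by_cases h : Even j <;> simp [lt, h]

lemma lt_add_two : lt a b (j + 2) = lt a b j := by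
  rw [show j + 2 = j + 1 + 1 by ring, lt_succ, lt_succ]

lemma lt_add_even {k : ℤ} (h : Even k) : lt a b (j + k) = lt a b j := by
  simp [lt, Int.even_add, h]

lemma map_lt (f : X → Y) : f (lt a b j) = lt (f a) (f b) j := apply_ite f _ _ _

lemma lt_cases : (lt a b j = b ∧ lt a b (j + 1) = a) ∨ (lt a b j = a ∧ lt a b (j + 1) = b) := by
  by_cases h : Even j <;> simp [lt, h]

@[simp] lemma lt_zero : lt a b 0 = b := by simp [lt]

@[simp] lemma lt_one : lt a b 1 = a := by simp [lt]

end letters

section words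
variable {G : Type} [Group G] (a b : G) (j : ℤ)

/-- The alternating word of length `j`. -/
def W : G := (a * b) ^ (j / 2) * (if Even j then 1 else a)

/-- The reversed word. -/
def Wv : G := (if Even j then 1 else a) * (b * a) ^ (j / 2)

@[simp] lemma W_zero : W a b 0 = 1 := by simp [W]

@[simp] lemma Wv_zero : Wv a b 0 = 1 := by simp [Wv]

lemma W_succ : W a b (j + 1) = W a b j * lt a b (j + 1) := by
  rcases Int.even_or_odd' j with ⟨i, rfl | rfl⟩
  · have : (2 * i + 1) / 2 = 2 * i / 2 := by omega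
    have h2 : ¬ Even (2 * i + 1) := by simp [parity_simps]
    simp [W, lt, this, h2]
  · have h1 : (2 * i + 1 + 1) / 2 = (2 * i + 1) / 2 + 1 := by omega
    have h2 : Even (2 * i + 1 + 1) := ⟨i + 1, by ring⟩
    simp [W, lt, h1, h2, zpow_add_one, mul_assoc]

lemma Wv_succ : Wv a b (j + 1) = lt a b (j + 1) * Wv a b j := by
  rcases Int.even_or_odd' j with ⟨i, rfl | rfl⟩
  · have : (2 * i + 1) / 2 = 2 * i / 2 := by omega
    have h2 : ¬ Even (2 * i + 1) := by simp [parity_simps]
    simp [Wv, lt, this, h2]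
  · have h1 : (2 * i + 1 + 1) / 2 = 1 + (2 * i + 1) / 2 := by omega
    have h2 : Even (2 * i + 1 + 1) := ⟨i + 1, by ring⟩
    simp [Wv, lt, h1, h2, zpow_one_add, mul_assoc]

lemma swap_zpow (i : ℤ) : a * (b * a) ^ i = (a * b) ^ i * a :=
  (show SemiconjBy a (b * a) (a * b) from (mul_assoc _ _ _).symm).zpow_right i

lemma W_succ' : W a b (j + 1) = a * W b a j := by
  rw [W_succ, W, W, ← mul_assoc, swap_zpow, lt_succ, lt]
  split_ifs <;> simp

lemma omega_eq_W (n : ℕ) : omega a b n = W a b n := by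
  rw [omega, W]
  rcases Nat.even_or_odd' n with ⟨i, rfl | rfl⟩
  · simp
  · have : ((2 * i + 1 : ℕ) : ℤ) / 2 = (i : ℕ) := by omega
    rw [this]
    simp

lemma map_W {H : Type} [Group H] (f : G →* H) : f (W a b j) = W (f a) (f b) j := by
  rw [W, W]
  split_ifs <;> simp

lemma W_mem {S : Subgroup G} (ha : a ∈ S) (hb : b ∈ S) : W a b j ∈ S := by
  refine mul_mem (zpow_mem (mul_mem ha hb) _) ?_
  split_ifs
  · exact one_mem _
  · exact ha

variable {a b} {m : ℤ} (h : W a b m = W b a m)
include h

lemma delta_conj : W a b m * lt a b (j + m) = lt a b j * W a b m := by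
  by_cases hj : Even j
  · rw [add_comm, lt_add_even _ _ _ hj, ← lt_succ, h, ← W_succ, W_succ', lt, if_pos hj, h]
  · have : Even (j - 1) := by simpa [Int.even_sub_one] using hj
    rw [show j + m = m + 1 + (j - 1) by ring, lt_add_even _ _ _ this, ← W_succ, W_succ', lt,
      if_neg hj, h]

lemma delta_conj' : lt a b (j + m) * W a b m = W a b m * lt a b j := by
  rw [← delta_conj _ h, add_assoc, lt_add_even _ _ _ ⟨m, rfl⟩]

lemma W_add : W a b (j + m) = W a b j * W a b m := by
  induction j using Int.induction_on with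
  | zero => simp
  | succ i ih => rw [add_right_comm, W_succ, ih, W_succ, mul_assoc, add_right_comm, delta_conj _ h,
      mul_assoc]
  | pred i ih =>
    have e1 := W_succ a b (-i - 1 + m)
    have e2 := W_succ a b (-i - 1)
    rw [show -(i : ℤ) - 1 + m + 1 = -i + m by ring, ih] at e1
    rw [sub_add_cancel] at e2
    rw [e2, mul_assoc, ← delta_conj _ h, ← mul_assoc] at e1
    exact (mul_right_cancel e1).symm

lemma Wv_add : Wv a b (j + m) = W a b m * Wv a b j := by
  induction j using Int.induction_on with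
  | zero =>
    rw [zero_add, Wv_zero, mul_one]
    by_cases hm : Even m
    · rw [h]
      simp [W, Wv, hm]
    · simp [W, Wv, hm, swap_zpow]
  | succ i ih => rw [add_right_comm, Wv_succ, ih, Wv_succ, ← mul_assoc, add_right_comm,
      delta_conj' _ h, mul_assoc]
  | pred i ih =>
    have e1 := Wv_succ a b (-i - 1 + m)
    have e2 := Wv_succ a b (-i - 1)
    rw [show -(i : ℤ) - 1 + m + 1 = -i + m by ring, ih] at e1
    rw [sub_add_cancel] at e2
    rw [e2, ← mul_assoc, ← delta_conj' _ h, mul_assoc] at e1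
    exact (mul_left_cancel e1).symm

lemma zed_lt : Commute (W a b m * W a b m) (lt a b j) := by
  rw [Commute, SemiconjBy, mul_assoc, ← delta_conj' _ h, ← mul_assoc, delta_conj _ h, mul_assoc]

lemma zed_mem {g : G} (hg : g ∈ Subgroup.closure {a, b}) : Commute (W a b m * W a b m) g := by
  refine (Subgroup.closure_le (Subgroup.centralizer {W a b m * W a b m})).mpr ?_ hg _ rfl
  rintro x (rfl | rfl) _ rfl
  · simpa using (zed_lt 1 h).eq
  · simpa using (zed_lt 0 h).eq

end words

/-- The signed number of crossings of the wall `i` between the chambers `0` and `j`. -/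
def Nw (m i j : ℤ) : ℤ := (j - i) / m - (-i) / m

lemma ediv_eq {a m : ℤ} (q : ℤ) (h1 : m * q ≤ a) (h2 : a < m * q + m) :
    a / m = q ∧ a % m = a - m * q :=
  (Int.ediv_emod_unique (by omega)).mpr ⟨by ring, by omega, by omega⟩

section arith
variable {m : ℤ} (hm : 0 < m)
include hm

lemma Nw_succ (i j : ℤ) : Nw m i (j + 1) = Nw m i j + if m ∣ j + 1 - i then 1 else 0 := by
  have h1 := Int.mul_ediv_add_emod (j - i) m
  have h2 := Int.emod_nonneg (j - i) hm.ne'
  have h3 := Int.emod_lt_of_pos (j - i) hm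
  rw [Nw, Nw]
  generalize (j - i) / m = q at *
  by_cases h : (j - i) % m + 1 = m
  · have h4 : j + 1 - i = m * (q + 1) := by linarith
    rw [if_pos ⟨_, h4⟩, h4, Int.mul_ediv_cancel_left _ hm.ne']
    ring
  · have h4 := ediv_eq (a := j + 1 - i) (m := m) q (by omega) (by omega)
    rw [if_neg (fun h5 => by have := Int.emod_eq_zero_of_dvd h5; omega), h4.1, add_zero]

lemma Nw_add (i j q : ℤ) : Nw m i (j + m * q) = Nw m i j + q := by
  rw [Nw, Nw, add_sub_right_comm, Int.add_mul_ediv_left _ _ hm.ne']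
  ring

omit hm in
@[simp] lemma Nw_zero (i : ℤ) : Nw m i 0 = 0 := by simp [Nw]

omit hm in
/-- The positions that carry a free generator. -/
def On (m k : ℤ) : Prop := Odd (k / m + k % m) ∧ k % m ≠ 0

lemma on_succ {k : ℤ} (h : On m (k + 1)) : ¬ On m k := by
  have h1 := Int.mul_ediv_add_emod k m
  have h2 := Int.emod_nonneg k hm.ne'
  have h3 := Int.emod_lt_of_pos k hm
  by_cases h4 : k % m + 1 = m
  · exact absurd (Int.emod_eq_zero_of_dvd ⟨k / m + 1, by linarith⟩) h.2
  · have h5 := ediv_eq (a := k + 1) (m := m) (k / m) (by omega) (by omega)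
    rintro ⟨⟨x, hx⟩, -⟩
    obtain ⟨⟨y, hy⟩, -⟩ := h
    omega

lemma on_add (k : ℤ) : On m (k + m) ↔ ¬ On m k ∧ ¬ m ∣ k := by
  have h1 : (k + m) / m = k / m + 1 := by
    simpa using Int.add_mul_ediv_left k 1 hm.ne'
  rw [On, On, h1, Int.add_emod_right, add_right_comm, ← Int.not_even_iff_odd,
    Int.even_add_one, Int.not_even_iff_odd, Int.dvd_iff_emod_eq_zero]
  tauto

end arith

section gauge
variable {G : Type} [Group G] {a b : G} {m : ℤ}

variable (a b m) in
/-- The palindromic words, corrected by a power of the central element. -/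
def Gp (j : ℤ) : G := W a b j * Wv a b j * (W a b m * W a b m) ^ (-Nw m 2 j)

@[simp] lemma Gp_zero : Gp a b m 0 = 1 := by simp [Gp]

lemma Wv_mem (j : ℤ) : Wv a b j ∈ Subgroup.closure {a, b} := by
  have ha : a ∈ Subgroup.closure {a, b} := Subgroup.subset_closure (by simp)
  have hb : b ∈ Subgroup.closure {a, b} := Subgroup.subset_closure (by simp)
  refine mul_mem ?_ (zpow_mem (mul_mem hb ha) _)
  split_ifs
  · exact one_mem _
  · exact ha

lemma W_mem' (j : ℤ) : W a b j ∈ Subgroup.closure {a, b} :=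
  W_mem _ _ _ (Subgroup.subset_closure (by simp)) (Subgroup.subset_closure (by simp))

lemma Gp_mem (j : ℤ) : Gp a b m j ∈ Subgroup.closure {a, b} :=
  mul_mem (mul_mem (W_mem' _) (Wv_mem _)) (zpow_mem (mul_mem (W_mem' _) (W_mem' _)) _)

variable (h : W a b m = W b a m) (hm : 0 < m)
include h hm

lemma Gp_add (j : ℤ) : Gp a b m (j + m) = Gp a b m j := by
  have := Nw_add hm 2 j 1
  rw [mul_one] at this
  rw [Gp, Gp, this, W_add _ h, Wv_add _ h, neg_add, add_comm, zpow_add, zpow_neg_one]
  have h1 := (zed_mem h (Wv_mem j)).eq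
  generalize W a b m = d at *
  calc _ = W a b j * (d * d * Wv a b j) * ((d * d)⁻¹ * (d * d) ^ (-Nw m 2 j)) := by group
    _ = _ := by rw [h1]; group

lemma Gp_add_mul (j q : ℤ) : Gp a b m (j + m * q) = Gp a b m j := by
  induction q using Int.induction_on with
  | zero => simp
  | succ i ih => rw [mul_add, mul_one, ← add_assoc, Gp_add h hm, ih]
  | pred i ih => rw [← Gp_add h hm, ← ih]; congr 1; ring

omit h hm in
lemma Gp_succ (j : ℤ) : W a b (j + 1) * lt a b (j + 1) =
    Gp a b m (j + 1) * (W a b m * W a b m) ^ (Nw m 2 (j + 1) - Nw m 2 j) * (Gp a b m j)⁻¹ *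
      W a b j := by
  rw [Gp, Gp, Wv_succ]
  generalize W a b m * W a b m = z at *
  group

end gauge

end Pool.Agent.Lib.MP_19b52f_al.EA2
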